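import Mathlib

/-!
# Project RK (MP_b3ce06_al): finiteness of the rank two groups over rings of characteristic two

`R = F_2[y]` a finite ring in which `y` and `ȳ = 1 + y` are units, `bar` the automorphism with `y ↦ ȳ`,
`k` its fixed ring, `d = y ȳ`, `s = y / ȳ`.  Target picture: `V = R ⊕ k`, `a r : (x, u) ↦ (x + u r, u)`,
`b r : (x, u) ↦ (x, u + Tr (r x))`, `Y` = multiplication by `y` on `R`, `w` exchanges `a` and `b`,
`c = [a 1, b 1]` acts as `bar`.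
-/

set_option autoImplicit false

namespace Pool.Agent.Helper43.RK

/-- the data of the rank two group (all relations) -/
structure Dt (R : Type) [CommRing R] (G : Type) [Group G] where
  y : Rˣ
  yb : Rˣ
  bar : R →+* R
  a : R → G
  b : R → G
  Y : G
  Yb : G
  w : G
  two : ∀ r : R, r + r = 0
  hy : (y : R) + (yb : R) = 1
  bary : bar (y : R) = (yb : R)
  barb : ∀ r, bar (bar r) = r
  gen : ∀ S : Subring R, (y : R) ∈ S → S = ⊤
  a_add : ∀ r r', a (r + r') = a r * a r'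
  b_add : ∀ r r', b (r + r') = b r * b r'
  aY : ∀ r, Y⁻¹ * a r * Y = a ((y : R) * r)
  bY : ∀ r, Y⁻¹ * b r * Y = b (((y⁻¹ : Rˣ) : R) * r)
  aYb : ∀ r, Yb⁻¹ * a r * Yb = a ((yb : R) * r)
  bYb : ∀ r, Yb⁻¹ * b r * Yb = b (((yb⁻¹ : Rˣ) : R) * r)
  YYb : Y * Yb = Yb * Y
  cc : (a 1 * b 1 * a 1 * b 1) * (a 1 * b 1 * a 1 * b 1) = 1
  ac : ∀ r, (a 1 * b 1 * a 1 * b 1) * a r * (a 1 * b 1 * a 1 * b 1) = a (bar r)
  bc : ∀ r, (a 1 * b 1 * a 1 * b 1) * b r * (a 1 * b 1 * a 1 * b 1) = b (bar r)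
  cY : (a 1 * b 1 * a 1 * b 1) * Y * (a 1 * b 1 * a 1 * b 1) = Yb
  ww : w * w = 1
  aw : ∀ r, w * a r * w = b r
  wY : w * Y * w = Y⁻¹

variable {R : Type} [CommRing R] {G : Type} [Group G]

namespace Dt

variable (D : Dt R G)

/-- `c = [a 1, b 1]` -/
def c : G := D.a 1 * D.b 1 * D.a 1 * D.b 1

/-- `n = a(y) b(1) a(y)` -/
def n : G := D.a (D.y : R) * D.b 1 * D.a (D.y : R)

/-- `z = (a(y) b(1))³` -/
def z : G := (D.a (D.y : R) * D.b 1) ^ 3

/-- the unit `s = y / ȳ` -/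
def s : Rˣ := D.y * D.yb⁻¹

/-- the unit `e = 1 / d`, `d = y ȳ` -/
def e : Rˣ := (D.y * D.yb)⁻¹

/-- the element of the torus belonging to `s` -/
def S : G := D.Y * D.Yb⁻¹

/-- the element of the torus belonging to `d` -/
def Q : G := D.Y * D.Yb

/-- `τ l = n a(l) n` -/
def tau (l : R) : G := D.n * D.a l * D.n

/-- `g` commutes with all `a r`, `b r` -/
def Cen (g : G) : Prop := ∀ r, g * D.a r = D.a r * g ∧ g * D.b r = D.b r * g

/-- `δ = [a 1, b e] [a e, b 1]` -/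
def del : G := (D.a 1 * D.b (D.e : R) * D.a 1 * D.b (D.e : R)) *
  (D.a (D.e : R) * D.b 1 * D.a (D.e : R) * D.b 1)

/-- the group generated by the `a r`, `b r` -/
def G0 : Subgroup G := Subgroup.closure (Set.range D.a ∪ Set.range D.b)

/-- `l` is good: `n` exchanges `a(l y)` and `b(l)`, and `τ l` acts as `1 + l Tr` and commutes with
the torus element of `d` -/
structure Gd (l : R) : Prop where
  ex : D.n * D.a (l * (D.y : R)) * D.n = D.b l
  ta : ∀ r, D.tau l * D.a r * D.tau l = D.a (r + l * (r + D.bar r))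
  tb : ∀ r, D.tau l * D.b r * D.tau l = D.b (r + l * (r + D.bar r))
  tQ : D.tau l * D.Q = D.Q * D.tau l

/-- the opposite root elements `x₂₁(l)` -/
def X (l : R) : G := D.Y⁻¹ * D.tau ((D.y : R) * (D.yb : R) * l) * D.Y

/-- `g` normalizes the set of all `a r` and the set of all `b r` -/
structure InL (g : G) : Prop where
  a1 : ∀ r, ∃ r', g⁻¹ * D.a r * g = D.a r'
  a2 : ∀ r, ∃ r', g * D.a r * g⁻¹ = D.a r'
  b1 : ∀ r, ∃ r', g⁻¹ * D.b r * g = D.b r'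
  b2 : ∀ r, ∃ r', g * D.b r * g⁻¹ = D.b r'

/-- the group generated by the `a (γ y)` and the `b γ`, `γ` in the fixed ring -/
def H1 : Subgroup G := Subgroup.closure
  ({g | ∃ r, D.bar r = r ∧ g = D.a (r * (D.y : R))} ∪ {g | ∃ r, D.bar r = r ∧ g = D.b r})

/-! ### Basic facts -/

theorem eq_one_of_eq_mul_self {g : G} (h : g = g * g) : g = 1 := by
  have h2 : g * 1 = g * g := by rw [mul_one]; exact h
  exact (mul_left_cancel h2).symm

theorem a0 : D.a 0 = 1 := by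
  have h := D.a_add 0 0
  rw [add_zero] at h
  exact eq_one_of_eq_mul_self h

theorem b0 : D.b 0 = 1 := by
  have h := D.b_add 0 0
  rw [add_zero] at h
  exact eq_one_of_eq_mul_self h

theorem aa (r : R) : D.a r * D.a r = 1 := by
  rw [← D.a_add, D.two, D.a0]

theorem bb (r : R) : D.b r * D.b r = 1 := by
  rw [← D.b_add, D.two, D.b0]

theorem ainv (r : R) : (D.a r)⁻¹ = D.a r := inv_eq_of_mul_eq_one_left (D.aa r)

theorem binv (r : R) : (D.b r)⁻¹ = D.b r := inv_eq_of_mul_eq_one_left (D.bb r)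

theorem acomm (r r' : R) : D.a r * D.a r' = D.a r' * D.a r := by
  rw [← D.a_add, ← D.a_add, add_comm]

theorem bcomm (r r' : R) : D.b r * D.b r' = D.b r' * D.b r := by
  rw [← D.b_add, ← D.b_add, add_comm]

theorem cdef : D.c = D.a 1 * D.b 1 * D.a 1 * D.b 1 := rfl

theorem c2 : D.c * D.c = 1 := D.cc

theorem cinv : D.c⁻¹ = D.c := inv_eq_of_mul_eq_one_left D.c2

theorem hac (r : R) : D.c * D.a r * D.c = D.a (D.bar r) := D.ac r

theorem hbc (r : R) : D.c * D.b r * D.c = D.b (D.bar r) := D.bc r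

theorem hcY : D.c * D.Y * D.c = D.Yb := D.cY

theorem hcYb : D.c * D.Yb * D.c = D.Y := by
  rw [← D.hcY]
  calc D.c * (D.c * D.Y * D.c) * D.c = (D.c * D.c) * D.Y * (D.c * D.c) := by group
    _ = D.Y := by rw [D.c2]; group

theorem winv : D.w⁻¹ = D.w := inv_eq_of_mul_eq_one_left D.ww

theorem bw (r : R) : D.w * D.b r * D.w = D.a r := by
  rw [← D.aw]
  calc D.w * (D.w * D.a r * D.w) * D.w = (D.w * D.w) * D.a r * (D.w * D.w) := by group
    _ = D.a r := by rw [D.ww]; group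

/-- `ȳ = 1 + y` -/
theorem yb_eq : (D.yb : R) = 1 + (D.y : R) := by
  have h := D.hy
  have h2 := D.two (D.y : R)
  linear_combination h - h2

theorem y_eq : (D.y : R) = 1 + (D.yb : R) := by
  have h := D.hy
  have h2 := D.two (D.yb : R)
  linear_combination h - h2

theorem bar_yb : D.bar (D.yb : R) = (D.y : R) := by
  rw [← D.bary, D.barb]

theorem y2 : (D.y : R) * (D.y : R) = (D.y : R) + (D.y : R) * (D.yb : R) := by
  have h := D.yb_eq
  have h2 := D.two (D.y : R)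
  rw [h]
  linear_combination -h2

theorem barinv (u : Rˣ) : D.bar ((u⁻¹ : Rˣ) : R) * D.bar (u : R) = 1 := by
  rw [← map_mul, Units.inv_mul, map_one]

/-- `1/ȳ = bar (1/y)` -/
theorem bar_yinv : D.bar ((D.y⁻¹ : Rˣ) : R) = ((D.yb⁻¹ : Rˣ) : R) := by
  have h := D.barinv D.y
  rw [D.bary] at h
  calc D.bar ((D.y⁻¹ : Rˣ) : R) = D.bar ((D.y⁻¹ : Rˣ) : R) * ((D.yb : R) * ((D.yb⁻¹ : Rˣ) : R)) := by
        rw [Units.mul_inv, mul_one]
    _ = ((D.yb⁻¹ : Rˣ) : R) := by rw [← mul_assoc, h, one_mul]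

theorem bar_ybinv : D.bar ((D.yb⁻¹ : Rˣ) : R) = ((D.y⁻¹ : Rˣ) : R) := by
  rw [← D.bar_yinv, D.barb]

/-- `1/y + 1/ȳ = 1/d` -/
theorem inv_sum : ((D.y⁻¹ : Rˣ) : R) + ((D.yb⁻¹ : Rˣ) : R) = (D.e : R) := by
  have h : (D.e : R) = ((D.y⁻¹ : Rˣ) : R) * ((D.yb⁻¹ : Rˣ) : R) := by
    simp only [e, mul_inv_rev, Units.val_mul]
    ring
  rw [h]
  have h1 : (D.y : R) * ((D.y⁻¹ : Rˣ) : R) = 1 := Units.mul_inv _
  have h2 : (D.yb : R) * ((D.yb⁻¹ : Rˣ) : R) = 1 := Units.mul_inv _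
  have h3 := D.hy
  linear_combination -((D.yb⁻¹ : Rˣ) : R) * h1 - ((D.y⁻¹ : Rˣ) : R) * h2 +
    ((D.y⁻¹ : Rˣ) : R) * ((D.yb⁻¹ : Rˣ) : R) * h3

/-- `y = 1 + y e d`-type facts: `s = 1 + e y` -/
theorem s_eq : (D.s : R) = 1 + (D.e : R) * (D.y : R) := by
  have h1 : (D.y : R) * ((D.y⁻¹ : Rˣ) : R) = 1 := Units.mul_inv _
  have h2 : (D.yb : R) * ((D.yb⁻¹ : Rˣ) : R) = 1 := Units.mul_inv _
  have h3 := D.hy
  have h4 := D.two (1 : R)
  have hs : (D.s : R) = (D.y : R) * ((D.yb⁻¹ : Rˣ) : R) := by simp [s]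
  have he : (D.e : R) = ((D.y⁻¹ : Rˣ) : R) * ((D.yb⁻¹ : Rˣ) : R) := by
    simp only [e, mul_inv_rev, Units.val_mul]
    ring
  have h5 : (D.e : R) * (D.y : R) = ((D.yb⁻¹ : Rˣ) : R) := by
    rw [he]
    linear_combination ((D.yb⁻¹ : Rˣ) : R) * h1
  rw [hs, h5]
  linear_combination ((D.yb⁻¹ : Rˣ) : R) * h3 - h2 - h4

theorem bar_e : D.bar (D.e : R) = (D.e : R) := by
  rw [← D.inv_sum, map_add, D.bar_yinv, D.bar_ybinv, add_comm]

theorem aYinv (r : R) : D.Y * D.a r * D.Y⁻¹ = D.a (((D.y⁻¹ : Rˣ) : R) * r) := by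
  have h := D.aY (((D.y⁻¹ : Rˣ) : R) * r)
  rw [← mul_assoc, Units.mul_inv, one_mul] at h
  rw [← h]; group

theorem bYinv (r : R) : D.Y * D.b r * D.Y⁻¹ = D.b ((D.y : R) * r) := by
  have h := D.bY ((D.y : R) * r)
  rw [← mul_assoc, Units.inv_mul, one_mul] at h
  rw [← h]; group

theorem aYbinv (r : R) : D.Yb * D.a r * D.Yb⁻¹ = D.a (((D.yb⁻¹ : Rˣ) : R) * r) := by
  have h := D.aYb (((D.yb⁻¹ : Rˣ) : R) * r)
  rw [← mul_assoc, Units.mul_inv, one_mul] at h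
  rw [← h]; group

theorem bYbinv (r : R) : D.Yb * D.b r * D.Yb⁻¹ = D.b ((D.yb : R) * r) := by
  have h := D.bYb ((D.yb : R) * r)
  rw [← mul_assoc, Units.inv_mul, one_mul] at h
  rw [← h]; group

/-- the torus element `S` of `s` acts on `a` -/
theorem aS (r : R) : D.S⁻¹ * D.a r * D.S = D.a ((D.s : R) * r) := by
  have hs : (D.s : R) * r = ((D.yb⁻¹ : Rˣ) : R) * ((D.y : R) * r) := by
    simp only [s, Units.val_mul]; ring
  rw [hs, ← D.aYbinv, ← D.aY]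
  simp only [S]; group

theorem bS (r : R) : D.S⁻¹ * D.b r * D.S = D.b (((D.s⁻¹ : Rˣ) : R) * r) := by
  have hs : ((D.s⁻¹ : Rˣ) : R) * r = (D.yb : R) * (((D.y⁻¹ : Rˣ) : R) * r) := by
    simp only [s, mul_inv_rev, inv_inv, Units.val_mul]; ring
  rw [hs, ← D.bYbinv, ← D.bY]
  simp only [S]; group

/-- the torus element `Q` of `d = y ȳ` acts on `a` -/
theorem aQ (r : R) : D.Q⁻¹ * D.a r * D.Q = D.a ((D.y : R) * (D.yb : R) * r) := by
  have hs : (D.y : R) * (D.yb : R) * r = (D.yb : R) * ((D.y : R) * r) := by ring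
  rw [hs, ← D.aYb, ← D.aY]
  simp only [Q]; group

theorem aQinv (r : R) : D.Q * D.a r * D.Q⁻¹ = D.a ((D.e : R) * r) := by
  have hs : (D.e : R) * r = ((D.y⁻¹ : Rˣ) : R) * (((D.yb⁻¹ : Rˣ) : R) * r) := by
    simp only [e, mul_inv_rev, Units.val_mul]; ring
  rw [hs, ← D.aYinv, ← D.aYbinv]
  simp only [Q]; group

theorem bQ (r : R) : D.Q⁻¹ * D.b r * D.Q = D.b ((D.e : R) * r) := by
  have hs : (D.e : R) * r = ((D.yb⁻¹ : Rˣ) : R) * (((D.y⁻¹ : Rˣ) : R) * r) := by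
    simp only [e, mul_inv_rev, Units.val_mul]; ring
  rw [hs, ← D.bYb, ← D.bY]
  simp only [Q]; group

theorem bQinv (r : R) : D.Q * D.b r * D.Q⁻¹ = D.b ((D.y : R) * (D.yb : R) * r) := by
  have hs : (D.y : R) * (D.yb : R) * r = (D.y : R) * ((D.yb : R) * r) := by ring
  rw [hs, ← D.bYinv, ← D.bYbinv]
  simp only [Q]; group

end Dt

end Pool.Agent.Helper43.RK
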