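import Mathlib
import Pool.Agent.Helper43.RK.Defs

/-!
# Definitions for part (iii) of project RK (presentation (B) of helper22, target group)
-/

set_option autoImplicit false

namespace Pool.Agent.Helper43.RK

/-- `a_i = t⁻ⁱ a tⁱ` -/
def cj {G : Type} [Group G] (a t : G) (i : ℤ) : G := t ^ (-i) * a * t ^ i

/-- presentation (B) with `l = 1 - 2^n` -/
structure RelB (n k β : ℕ) {G : Type} [Group G] (g a t : G) : Prop where
  r1 : a⁻¹ * g * a = g ^ k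
  r2 : (g ^ 4)⁻¹ * t * g ^ 4 = t ^ 2
  r3 : (g ^ β)⁻¹ * t * g ^ β = cj a t (1 - 2 ^ n) * t⁻¹

/-- the parameters -/
structure Par (n k β : ℕ) : Prop where
  nodd : n % 2 = 1
  k8 : k % 8 = 7
  kn : n ∣ k - 1
  ke : ∃ e, 3 ≤ e ∧ k = 2 ^ e - 1
  b8 : β % 8 = 1
  nb : n ∣ β
  kb : (k - 1) / 2 ∣ β

/-- the relations that hold modulo a central subgroup of order at most two (part (i)) -/
structure RelC (n β : ℕ) {G : Type} [Group G] (g a t : G) : Prop where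
  a2 : a * a = 1
  fa : g ^ 4 * a = a * g ^ 4
  ft : (g ^ 4)⁻¹ * t * g ^ 4 = t ^ 2
  w2 : (g ^ β * a) * (g ^ β * a) = 1
  wt : (g ^ β * a)⁻¹ * t * (g ^ β * a) = t⁻¹
  th2 : (g ^ β) ^ 8 = 1
  tht : ((g ^ β) ^ 4)⁻¹ * t * (g ^ β) ^ 4 = t ^ (2 ^ β)
  tfin : ∃ N : ℕ, 0 < N ∧ t ^ N = 1
  com : ∀ i j : ℤ, cj a t i * cj a t j = cj a t j * cj a t i
  al : cj a t (1 - 2 ^ n) = a * cj a t 1
  gfin : ∃ N : ℕ, 0 < N ∧ g ^ N = 1

/-- `d` has absolute trace one and generates the field -/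
def DD (n : ℕ) (d : GaloisField 2 n) : Prop :=
  (∑ i ∈ Finset.range n, d ^ (2 ^ i)) = 1 ∧ ∀ S : Subring (GaloisField 2 n), d ∈ S → S = ⊤

section Target

variable {k : Type} [Field k]

/-- multiplication by `y`, `y² = y + d`, in the basis `1, y`, extended by `1` -/
def mY (d : k) : Matrix (Fin 3) (Fin 3) k := !![0, d, 0; 1, 1, 0; 0, 0, 1]

/-- Gram matrix of the trace form -/
def mJ : Matrix (Fin 3) (Fin 3) k := !![0, 1, 0; 1, 1, 0; 0, 0, 1]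

/-- the matrix of `y ↦ y²` -/
def mQ (d : k) : Matrix (Fin 3) (Fin 3) k := !![1, d, 0; 0, 1, 0; 0, 0, 1]

/-- `a(α + β y)` -/
def mA (α β : k) : Matrix (Fin 3) (Fin 3) k := !![1, 0, α; 0, 1, β; 0, 0, 1]

/-- the opposite transvections -/
def mB (α β : k) : Matrix (Fin 3) (Fin 3) k := !![1, 0, 0; 0, 1, 0; α, β, 1]

/-- data of the target group: a homomorphism `κ` from `GL(3,k)` and elements `w`, `φ` acting as `J`-inverse
transpose and as the twisted Frobenius -/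
structure Tg (n : ℕ) (d : k) (T : Type) [Group T] where
  κ : GL (Fin 3) k →* T
  w : T
  φ : T
  ww : w * w = 1
  wφ : w * φ = φ * w
  ker : ∀ M : GL (Fin 3) k, κ M = 1 ↔ ∀ N : GL (Fin 3) k, M * N = N * M
  hw : ∀ M N : GL (Fin 3) k, (mJ : Matrix (Fin 3) (Fin 3) k) * (N : Matrix (Fin 3) (Fin 3) k) =
    ((M⁻¹ : GL (Fin 3) k) : Matrix (Fin 3) (Fin 3) k).transpose * mJ → w * κ M * w⁻¹ = κ N
  hφ : ∀ M N : GL (Fin 3) k, (N : Matrix (Fin 3) (Fin 3) k) * mQ d =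
    mQ d * (M : Matrix (Fin 3) (Fin 3) k).map (fun x => x ^ 2) → φ * κ M * φ⁻¹ = κ N
  φn : ∀ N : GL (Fin 3) k, (N : Matrix (Fin 3) (Fin 3) k) = mQ 1 → φ ^ n = κ N

end Target

end Pool.Agent.Helper43.RK
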