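import Mathlib
import Pool.Agent.Helper43.RK.DefsT
import Pool.Agent.Helper41.DZ.Defs

/-!
# Statements of project RK, part (iii)

All modules are independent (hypotheses as named).
-/

set_option autoImplicit false

namespace Pool.Agent.Helper43.RK

open Pool.Agent.Helper41.DZ

/-- PAR.  Parameters exist.

PROOF. `k = 2^e - 1`, `e = 1 + 2 φ(n) ≥ 3`, `β = ((k - 1) / 2)²`.  `k % 8 = 7` as `8 ∣ 2^e`.
`k - 1 = 2 (2^(2 φ(n)) - 1)` and `n ∣ 2^φ(n) - 1` (Euler, `n` odd, `Nat.ModEq.pow_totient`), `n ∣ (k - 1) / 2`.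
`m² % 8 = 1` for odd `m = (k - 1) / 2 = 2^(2 φ(n)) - 1`. -/
def StPAR : Prop := ∀ n : ℕ, n % 2 = 1 → ∃ k β : ℕ, Par n k β

/-- DEX.  Existence of `d`.

PROOF. Let `c` be a generator of the cyclic group `kˣ`, `k = GaloisField 2 n` (`card = 2^n`, `GaloisField.card`); a subring
containing `c` contains all powers of `c` and `0`, so it is `⊤`.  `d = 1 + c + c²`.
(1) By additivity of `x ↦ x^(2^i)` (`add_pow_char_pow`), `Σ_{i<n} d^(2^i) = n + Σ_{i<n} (c^(2^i) + c^(2^(i+1)))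
= n + c + c^(2^n) = n + 2c = n = 1` (characteristic 2, telescoping sum, `n` odd).
(2) `n = 2m + 1`.  `d + 1 = c + c²`, `Σ_{i=0}^{m} (d+1)^(4^i) = Σ_{i=0}^{m} (c^(2^(2i)) + c^(2^(2i+1))) = Σ_{j=0}^{2m+1} c^(2^j)
= tr + c^(2^n) = tr + c` with `tr = Σ_{j<n} c^(2^j)`; `tr² = tr` (shift the sum, `c^(2^n) = c`) so `tr ∈ {0, 1}`.  So
`c = tr + Σ_{i≤m} (d+1)^(4^i)` lies in every subring that contains `d`. -/
def StDEX : Prop := ∀ n : ℕ, n % 2 = 1 → ∃ d : GaloisField 2 n, DD n d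

/-- TA.  The target group.

PROOF. `k = GaloisField 2 n`, `T = MulAut (GL (Fin 3) k)`, `κ = MulAut.conj` (kernel = center: this is `ker`).
`J = mJ` is symmetric and invertible; `w : M ↦ J⁻¹ (M⁻¹)ᵀ J`; `w (w M) = J⁻¹ ((J⁻¹ M⁻¹ᵀ J)⁻¹)ᵀ J = J⁻¹ (J⁻¹ Mᵀ J)ᵀ J = M`.
`hw`: for an automorphism `w`, `w (conj M) w⁻¹ = conj (w M)`, and `w M = N` iff `J N = (M⁻¹)ᵀ J`.
`F` = entrywise squaring (a group automorphism as squaring is a field automorphism, `frobeniusEquiv k 2`),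
`φ : M ↦ Q F(M) Q⁻¹`, `Q = mQ d` (invertible, determinant 1).  `hφ` as for `w`.
`wφ`: `φ(w M) = Q J⁻¹ (F M)⁻ᵀ J Q⁻¹` (entries of `J` are `0, 1`), `w(φ M) = J⁻¹ Q⁻ᵀ (F M)⁻ᵀ Qᵀ J`, and `Qᵀ J Q = J`
(characteristic 2: `J Q = !![0,1,0; 1,d+1,0; 0,0,1]`, `Qᵀ J Q = !![0,1,0; 1, d+d+1, 0; 0,0,1]`) gives `Qᵀ J = J Q⁻¹`, `J⁻¹ Q⁻ᵀ = Q J⁻¹`.
`φn`: by induction `φ^m M = Q_m F^m(M) Q_m⁻¹` with `Q_m = mQ (Σ_{i<m} d^(2^i))` (`mQ x * mQ y = mQ (x + y)`,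
`F(mQ x) = mQ (x²)`; with `φ^(m+1) = φ ∘ φ^m`: `Q F(Q_m) = mQ (d + (Σ_{i<m} d^(2^i))²) = mQ (Σ_{i<m+1} d^(2^i))`).
For `m = n`: `F^n = 1` (`x^(2^n) = x` in `k`), `Q_n = mQ 1`. -/
def StTA : Prop := ∀ (n : ℕ) (d : GaloisField 2 n), n % 2 = 1 → (∑ i ∈ Finset.range n, d ^ (2 ^ i)) = 1 →
  ∃ (T : Type) (_ : Group T), Nonempty (Tg n d T)

/-- TB.  The relations in the target.

PROOF. `k0 = GaloisField 2 n` has characteristic 2.  `a = κ A`, `t = κ Y`; matrices are compared entrywise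
(`ext i j; fin_cases i <;> fin_cases j`).
(1) `a² = 1` (`A² = 1`).  (2) `φ a φ⁻¹ = a` (`A Q = Q A`, entries of `A` are `0, 1`).
(3) `φ t φ⁻¹ = t²` (`hφ` with `N = Y²`: `Y² Q = Q (Y entrywise squared)`, both are `!![d, d²+d, 0; 1, 1, 0; 0, 0, 1]`).
(4) `w t w⁻¹ = t⁻¹` (`hw` with `M = Y`, `N = Y⁻¹`: `J Y⁻¹ = (Y⁻¹)ᵀ J`, equivalently `Yᵀ J = J Y`, both are
`!![1,1,0; 1,d+1,0; 0,0,1]`).
(5) `w a w⁻¹ = b := κ B`, `B = mB 0 1` (`J B = (A⁻¹)ᵀ J`, `A⁻¹ = A`).  `(B A)² = mQ 1` so `(w a)² = w a w a = b a`,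
`(w a)^4 = (b a)² = κ (mQ 1) = φ^n =: θ`, `θ² = 1` (`(mQ 1)² = 1`).
(6) `a_1 = t⁻¹ a t`.  `a_l = a a_1` for `l = 1 - 2^n`: with `q = 2^n`, `a_l = t^(q-1) a t^-(q-1)`; by induction
`Y^(2^m) = Y + (Σ_{i<m} d^(2^i)) · 1` on the upper left 2×2 block and `1` in the corner (`Y^(2^(m+1)) = (Y^(2^m))²`,
`Y² = Y + d`, characteristic 2), so `Y^q = Y' := !![1, d, 0; 1, 0, 0; 0,0,1]` (block `Y + 1`).  The relation `a_l = a a_1` follows from
`Y^(q-1) A Y^-(q-1) = A (Y⁻¹ A Y)`, equivalently (conjugate by `Y`): `Y^q A Y^-q = (Y A Y⁻¹) A`.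
`X (mA α β) X⁻¹ = mA (first two entries of X (α, β, 0)ᵀ)` for `X` fixing the third coordinate: `Y^q A Y^-q = mA 1 1`
(first column of `Y'` is `(1, 1)`), `Y A Y⁻¹ = mA 0 1`, `(mA 0 1)(mA 1 0) = mA 1 1`.
(7) `m = (β-1)/4`, `g = φ^m (w a)`; `φ` commutes with `w`, `a`.  `m` is even, `n ∣ β`, `β` odd, so `φ^β = θ`
(`β = n β'`, `β'` odd).  `g^4 = φ^(β-1) (w a)^4 = φ^(β-1) θ = φ^(β-1) φ^β = φ^(2β-1) = φ⁻¹` (`φ^(2β) = θ² = 1`).
`g^β = φ^(m β) (w a)^β = θ^m (w a) ((w a)^4)^m = w a` (`m` even, `β = 1 + 4m`).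
r1: `a⁻¹ g a = φ^m a w a a = φ^m a w = φ^m (w a)⁻¹`; `g^k = φ^(m k) (w a)^k`, `(w a)^8 = 1`, `k % 8 = 7` so `(w a)^k = (w a)⁻¹`,
and `φ^(m(k-1)) = 1` as `2n ∣ m (k-1)`, `φ^(2n) = 1`.
r2: `(g^4)⁻¹ t g^4 = φ t φ⁻¹ = t²`.
r3: `(g^β)⁻¹ t g^β = a⁻¹ w⁻¹ t w a = a t⁻¹ a` (`w² = 1`) `= a (t⁻¹ a t) t⁻¹ = a a_1 t⁻¹ = a_l t⁻¹`. -/
def StTB : Prop := ∀ (n k β : ℕ) (d : GaloisField 2 n), Par n k β →
  (∑ i ∈ Finset.range n, d ^ (2 ^ i)) = 1 → ∀ (T : Type) [Group T] (τ : Tg n d T)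
  (A Y : GL (Fin 3) (GaloisField 2 n)), (A : Matrix (Fin 3) (Fin 3) (GaloisField 2 n)) = mA 1 0 →
  (Y : Matrix (Fin 3) (Fin 3) (GaloisField 2 n)) = mY d →
  RelB n k β (τ.φ ^ ((β - 1) / 4) * (τ.w * τ.κ A)) (τ.κ A) (τ.κ Y) ∧
    (τ.φ ^ ((β - 1) / 4) * (τ.w * τ.κ A)) ^ β * τ.κ A = τ.w

/-- TC.  Generation.

PROOF. `k0 = GaloisField 2 n`.  Let `E = {(α, β) | κ (mA α β) ∈ H}` (every matrix of this form is in `GL`); it is
closed under addition (`mA α β * mA α' β' = mA (α+α') (β+β')`), contains `(1, 0)`, and under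
`(α, β) ↦ (dβ, α + β)` (conjugation by `κ Y`: `Y (mA α β) Y⁻¹ = mA (dβ) (α + β)`).  Applying the map twice and adding:
`(α, β) ↦ (dβ, α+β) ↦ (dα + dβ, dβ + α + β)`, sum of the last two is `(dα, dβ)`: `E` is closed under multiplication by `d`.
`{x | ∀ (α, β) ∈ E, (x α, x β) ∈ E}` is a subring (characteristic 2, or finite) containing `d`, so it is `⊤` (`DD`).
`(1, 0) ∈ E`, `(0, 1) ∈ E` (image of `(1, 0)`), so `E` is everything.
Conjugation by `w` (`hw`, `N = mB β (α + β)`... compute: `(A⁻¹)ᵀ = mB α β` for `A = mA α β`, and `J N = mB α β J` has the solution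
`N = mB β (α + β)`): all `κ (mB α β) ∈ H`.  So `H` contains `κ` of all transvections `E13, E23, E31, E32`, and of
`E12(c) = [E13(c), E32(1)]`, `E21(c) = [E23(c), E31(1)]`.  The transvections generate `SL(3, k0)`
(`Matrix.SpecialLinearGroup.diagonal_transvection_induction'` or Mathlib `Matrix.Pivot`; the diagonal matrices
`diag(u, 1/u, 1)` are products of transvections). -/
def StTC : Prop := ∀ (n : ℕ) (d : GaloisField 2 n), n % 2 = 1 → DD n d → ∀ (T : Type) [Group T] (τ : Tg n d T)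
  (A Y : GL (Fin 3) (GaloisField 2 n)), (A : Matrix (Fin 3) (Fin 3) (GaloisField 2 n)) = mA 1 0 →
  (Y : Matrix (Fin 3) (Fin 3) (GaloisField 2 n)) = mY d →
  ∀ H : Subgroup T, τ.κ A ∈ H → τ.κ Y ∈ H → τ.w ∈ H →
  ∀ M : Matrix.SpecialLinearGroup (Fin 3) (GaloisField 2 n), τ.κ (M : GL (Fin 3) (GaloisField 2 n)) ∈ H

/-- TD.  From the generation to `PSL(3, 2^n)` as a quotient of a normal subgroup.

PROOF. `S = {κ M : M ∈ SL(3, k0)}`, a subgroup of `T` contained in `f.range` (TC for `H = f.range`; `w = f(g)^β f(a)`).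
`S` is normalized by `κ X` for all `X` (SL is normal in GL), by `w` (`hw`: `N = J⁻¹ (M⁻¹)ᵀ J` has determinant `1`), by `φ`
(`hφ`), and by the inverses (`S` finite, or `w⁻¹ = w`, `φ^n = κ _`); so by `f g = φ^m (w κ A)`, `f a`, `f t`, so by `f.range`
(`closure {g, a, t} = ⊤`).  `Lc = S.comap f` is normal in `G`; `Lc → S` is surjective; `S ≅ SL(3,k0)/ker`, and
`κ M = 1` iff `M` commutes with `GL(3,k0)` iff `M ∈ center SL(3,k0)` (`M` commutes with all transvections iff scalar: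
`Matrix.SpecialLinearGroup.mem_center_iff`), so `S ≅ PSL(3, k0)`
(`Matrix.ProjectiveSpecialLinearGroup = SL ⧸ center SL`). -/
def StTD : Prop := StTC → ∀ (n β : ℕ) (d : GaloisField 2 n), n % 2 = 1 → DD n d → ∀ (T : Type) [Group T]
  (τ : Tg n d T) (A Y : GL (Fin 3) (GaloisField 2 n)),
  (A : Matrix (Fin 3) (Fin 3) (GaloisField 2 n)) = mA 1 0 →
  (Y : Matrix (Fin 3) (Fin 3) (GaloisField 2 n)) = mY d →
  ∀ (G : Type) [Group G] (f : G →* T) (g a t : G), f a = τ.κ A → f t = τ.κ Y →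
    f g = τ.φ ^ ((β - 1) / 4) * (τ.w * τ.κ A) → (f g) ^ β * f a = τ.w →
    Subgroup.closure {g, a, t} = (⊤ : Subgroup G) →
    ∃ Lc : Subgroup G, Lc.Normal ∧
      ∃ f' : Lc →* Matrix.ProjectiveSpecialLinearGroup (Fin 3) (GaloisField 2 n), Function.Surjective f'

/-- SIM.  `PSL(3, F)` is simple.

PROOF. Copy `Mathlib/LinearAlgebra/Projectivization/PSL/PSL2.lean`: `Matrix.SpecialLinearGroup.lineStab` and
`PSL.iwasawaT` in `Mathlib/LinearAlgebra/Projectivization/PSL/Stabilizer.lean` are for general `ι`.  Needed for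
`Fin 3`: (1) `⨆ lineStab = ⊤`: all transvections lie in a `lineStab` (`SL2Gen.transvection_mem_lineStab` is general) and
they generate `SL(3, F)` (`diagonal_transvection_induction'`, `Matrix/SpecialLinearGroup.lean` line 708; the diagonal case
as in `SL2.transvection_induction`); (2) `SL(3, F)` is perfect: `E_ij(c) = [E_ik(c), E_kj(1)]`, `i, j, k` distinct;
(3) the action on `ℙ F (Fin 3 → F)` is faithful and quasipreprimitive (2-transitive), see how the `inferInstance` in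
`rank_two_simple'` is found (`Mathlib/LinearAlgebra/Projectivization/Action.lean`). -/
def StSIM : Prop := ∀ (F : Type) [Field F], IsSimpleGroup (Matrix.ProjectiveSpecialLinearGroup (Fin 3) F)

/-- DTC.  The ring and the data `Dt` (part (ii)) from the relations modulo the center.

PROOF. `a_i = cj a t i`, `q = 2^n`.  `U = closure {a_i}` is abelian of exponent two (`com`, `a2`) and finite, generated by
`a_0, ..., a_{N-1}` (`tfin`, `t^N = 1`).  `E = Additive U`, `T1 : E → E`, `u ↦ t u t⁻¹` (so `T1 a_i = a_{i-1}`), an automorphism of finite order.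
Let `R = Subring.closure {T1} ≤ AddMonoid.End E`: a finite commutative ring (`E` is finite), `2 = 0` in it.  `y = T1`.
(Or: `R = AdjoinRoot (X^q + X + 1 : (ZMod 2)[X])` acting on `E` with `X ↦ T1`; then `bar` is a lift.)
`y^q = y + 1`: both sides agree on all `a_i`: conjugate `al` (`a_{1-q} = a_0 a_1`) by `t^(i-1)`: `a_{i-q} = a_{i-1} a_i`.
So `y` is a unit (`y (y^(q-1) + 1) = 1`), `ȳ := y + 1 = y^q` is a unit, `y + ȳ = 1`.
`y^(q²) = (y + 1)^q = y^q + 1 = y` (characteristic 2), so `y^(2^β) = y^(q^(β/n)) = y^q = ȳ` as `β/n` is odd.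
`θ = (g^β)^4`: `θ⁻¹ t θ = t^(2^β)` (`tht`), `θ² = 1`, `θ` commutes with `a` (`θ = (g^4)^β`, `fa`), so `θ⁻¹ a_i θ = a_{2^β i}`: it
acts on `E` by `Θ`, `Θ T1 Θ⁻¹ = T1^(2^β)`; `bar r = Θ r Θ⁻¹` maps `R` to `R` (`y ↦ y^(2^β) = ȳ`), a ring automorphism of order two.
`gen` is clear.  `a r = r(a_0) ∈ U ⊂ G`, additive, `a 1 = a`; `w = g^β a`, `b r = w (a r) w`.  `Y = t⁻¹`, `Yb = t^(-2^β)`.
`aY : Y⁻¹ (a r) Y = t (a r) t⁻¹ = a (y r)`.  `aYb` : `Yb⁻¹ (a r) Yb = a (y^(2^β) r) = a (ȳ r)`.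
`wY` : `w t⁻¹ w = t` (`wt`, `w2`).  `bY` : `Y⁻¹ b_r Y = t w a_r w t⁻¹ = w t⁻¹ a_r t w = b (y⁻¹ r)`.
`c = a 1 b 1 a 1 b 1 = (a w a w)²`, `a w = (w a)⁻¹`, and `w a = g^β a a = g^β`, so `c = (g^β)^(-4) = θ⁻¹ = θ`
(`th2`).  So `cc`, `ac` (`θ⁻¹ r(a_0) θ = (Θ r Θ⁻¹)(a_0)` as `Θ a_0 = a_0`), `bc` (`θ` commutes with `w = g^β a`), `cY` (`tht`). -/
def StDTC : Prop := ∀ (n β : ℕ), 1 ≤ n → β % 2 = 1 → n ∣ β → ∀ (G : Type) [Group G] (g a t : G), RelC n β g a t →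
  ∃ (R : Type) (_ : CommRing R) (_ : Finite R) (D : Dt R G), D.a 1 = a ∧ D.w = g ^ β * a ∧ D.Y = t⁻¹ ∧
    (∀ r, D.a r ∈ Subgroup.closure (Set.range (cj a t))) ∧ ∀ i : ℤ, ∃ r, cj a t i = D.a r

/-- FG.  Finiteness of `G` from finiteness of `G0`.

PROOF. `G0 = D.G0 = closure {a_i, w a_i w}` (`D.aw`; `range D.a` is the closure of the `a_i`: it is a subgroup containing them and
contained in the closure).  `f = g^4`: `f⁻¹ a_i f = a_{2i}` (`fa`, `ft`), `f a_i f⁻¹`: as `f` has finite order, conjugation by `f⁻¹` is a power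
of conjugation by `f`.  `f` commutes with `w = g^β a`.  So `G0` is normalized by `f`, by `t` (`D.aY`, `D.bY`, `Y = t⁻¹`, again finite
order, or `D.aYinv`), by `w`, by `a ∈ G0`, so by `g^β = w a`, so by `g` (`β` odd: `g` is in the subgroup generated by `g^4`, `g^β`).
So `G0` is normal.  In `G ⧸ G0`: `a = 1`, generated by `g, t`; `⟨t⟩` is finite (`tfin`) and normalized by `g^4` (`ft`) and
`g^β = w a` (`wt`: `t^w = t⁻¹`), so by `g`, so normal; the quotient by it is generated by `g`, of finite order (`gfin`).  So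
`G ⧸ G0` is finite and `G` is finite. -/
def StFG : Prop := ∀ (n β : ℕ), 1 ≤ n → β % 2 = 1 → ∀ (G : Type) [Group G] (g a t : G), RelC n β g a t →
  Subgroup.closure {g, a, t} = (⊤ : Subgroup G) →
  ∀ (R : Type) [CommRing R] [Finite R] (D : Dt R G), D.a 1 = a → D.w = g ^ β * a → D.Y = t⁻¹ →
    (∀ r, D.a r ∈ Subgroup.closure (Set.range (cj a t))) → (∀ i : ℤ, ∃ r, cj a t i = D.a r) →
    Finite D.G0 → Finite G

/-- PI.  Part (i) (helper22). -/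
def StPI : Prop := ∀ (n k β : ℕ), Par n k β → ∀ (G : Type) [Group G] (g a t : G), RelB n k β g a t →
  Subgroup.closure {g, a, t} = (⊤ : Subgroup G) →
  ∃ (C : Subgroup G) (_ : C.Normal), Finite C ∧
    RelC n β (QuotientGroup.mk g : G ⧸ C) (QuotientGroup.mk a) (QuotientGroup.mk t)

end Pool.Agent.Helper43.RK
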