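import Mathlib
import Pool.Agent.Helper43.RK.DefsT

/-!
# Definitions for part (i) of project RK: triangles in the group `⟨t, f, a | t^f = t², f^a = f^k, ...⟩`
-/

set_option autoImplicit false

namespace Pool.Agent.Helper43.RK

/-- `Λ` is a commutative ring with `2` invertible (think of `ℤ[1/2]`), `p x = t^x` -/
structure PP (Λ : Type) [CommRing Λ] (G : Type) [Group G] (k : ℤ) where
  u : Λˣ
  hu : (u : Λ) = 2
  p : Λ → G
  f : G
  a : G
  add : ∀ x y, p (x + y) = p x * p y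
  pf : ∀ x, f⁻¹ * p x * f = p (2 * x)
  af : a⁻¹ * f * a = f ^ k

namespace PP

variable {Λ : Type} [CommRing Λ] {G : Type} [Group G] {k : ℤ} (P : PP Λ G k)

/-- `Z = f^(1-k)` -/
def Z : G := P.f ^ (1 - k)

/-- `2^i` in `Λ` -/
def up (i : ℤ) : Λ := ((P.u ^ i : Λˣ) : Λ)

/-- `N = 2^k - 1` -/
def N : Λ := P.up k - 1

/-- the triangle `(v; l, r, e)`: `a p(v) a = p(l) a p(r) Z^e` -/
def Tri (v l r : Λ) (e : ℤ) : Prop := P.a * P.p v * P.a = P.p l * P.a * P.p r * P.Z ^ e

theorem up_add (i j : ℤ) : P.up (i + j) = P.up i * P.up j := by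
  simp only [up, zpow_add, Units.val_mul]

theorem up_zero : P.up 0 = 1 := by simp [up]

theorem up_one : P.up 1 = 2 := by simp [up, P.hu]

theorem up_neg (i : ℤ) : P.up i * P.up (-i) = 1 := by
  rw [← up_add, add_neg_cancel, up_zero]

theorem p0 : P.p 0 = 1 := by
  have h := P.add 0 0
  rw [add_zero] at h
  have h2 : P.p 0 * 1 = P.p 0 * P.p 0 := by rw [mul_one]; exact h
  exact (mul_left_cancel h2).symm

theorem pneg (x : Λ) : P.p (-x) = (P.p x)⁻¹ := by
  rw [eq_inv_iff_mul_eq_one, ← P.add, neg_add_cancel, P.p0]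

end PP

end Pool.Agent.Helper43.RK
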