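import Mathlib
import Pool.Agent.Helper43.RK.DefsI

/-!
# Statements of project RK, part (i) (derivation of helper22)

Notation: `p(x) = P.p x` (`t^x`), `up i = 2^i ∈ Λ`, `Z = f^(1-k)`, `N = 2^k - 1`, exponents `e, i : ℤ`.
-/

set_option autoImplicit false

namespace Pool.Agent.Helper43.RK

/-- IPX.  Dyadic powers of `t`.

PROOF. `Λ` = the subring of `ℚ` generated by `1/2` (or `Localization.Away (2 : ℤ)`); every `x ∈ Λ` is `m / 2^i`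
(`m : ℤ`, `i : ℕ`).  `p(m/2^i) = f^i t^m f^-i`.  Well defined: `F(i, m) = f^i t^m f^-i` satisfies `F(i+1, 2m) = F(i, m)`
(`f t² f⁻¹ = t`), so `F(i, m) = F(i+j, 2^j m) = F(i+j, 2^i m') = F(j, m')` if `m/2^i = m'/2^j`.  Additive: common denominators.
`f⁻¹ F(i, m) f = F(i, 2m)` (conjugating `t^m` by `f` gives `t^(2m)`; `f` commutes with `f^i`). -/
def StIPX : Prop := ∀ (G : Type) [Group G] (t f a : G) (k : ℤ), f⁻¹ * t * f = t ^ 2 → a⁻¹ * f * a = f ^ k →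
  ∃ (Λ : Type) (_ : CommRing Λ) (P : PP Λ G k), P.f = f ∧ P.a = a ∧ P.p 1 = t

/-- IRU.  Rules.

PROOF. (1) `f⁻ᵐ p(x) fᵐ = p(2^m x)` for `m : ℤ` (induction; for negative `m` use `x = 2 (up (-1) x)`); `Z^e = f^(-m)` with
`m = (k-1) e`.  (2) `a⁻¹ Z^e a = (a⁻¹ f a)^((1-k) e) = Z^(k e)`.  (3) `f⁻¹ a f = a (a⁻¹ f⁻¹ a) f = a f^(-k) f = a Z`.
(4) conjugate by `f`. -/
def StIRU : Prop := ∀ (Λ : Type) [CommRing Λ] (G : Type) [Group G] (k : ℤ) (P : PP Λ G k),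
  (∀ (e : ℤ) (x : Λ), P.Z ^ e * P.p x = P.p (P.up ((k - 1) * e) * x) * P.Z ^ e) ∧
  (∀ e : ℤ, P.Z ^ e * P.a = P.a * P.Z ^ (k * e)) ∧
  (P.f⁻¹ * P.a * P.f = P.a * P.Z) ∧
  (∀ x : Λ, P.p (2 * x) = 1 ↔ P.p x = 1) ∧
  (∀ (m : ℤ) (x : Λ), P.f ^ (-m) * P.p x * P.f ^ m = P.p (P.up m * x)) ∧
  (∀ (m : ℤ) (x : Λ), P.p ((m : Λ) * x) = P.p x ^ m)

/-- ISC.  Scaling of triangles: for `i : ℤ`, `(v; l, r, e) ⇒ (2^(k i) v; 2^i l, 2^(k i) r, e - k i)`.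

PROOF. `i = 1` is an equivalence: conjugate `a p(v) a = p(l) a p(r) Z^e` by `f` (`f⁻¹ a f = a Z`, `f⁻¹ p(x) f = p(2x)`,
`f⁻¹ Z f = Z`): left `a Z p(2v) a Z = a p(2^(k-1) 2v) Z a Z = a p(2^k v) a Z^(k+1)`, right
`p(2l) a Z p(2r) Z^e = p(2l) a p(2^k r) Z^(e+1)`.  So `a p(2^k v) a = p(2l) a p(2^k r) Z^(e-k)`.  Induction on `i` in both
directions. -/
def StISC : Prop := StIRU → ∀ (Λ : Type) [CommRing Λ] (G : Type) [Group G] (k : ℤ) (P : PP Λ G k)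
  (v l r : Λ) (e : ℤ), P.Tri v l r e → ∀ i : ℤ,
    P.Tri (P.up (k * i) * v) (P.up i * l) (P.up (k * i) * r) (e - k * i)

/-- ITH.  The operation `Θ`.

PROOF. From `a p(v) a = p(l) a p(r) Z^e`: `a⁻¹ p(-l) a = p(r) Z^e a⁻¹ p(-v)`, so `s(l) := a⁻¹ p(l) a = p(v) a Z^(-e) p(-r)`.
By ISC (`i = 1`) `s(2l) = p(2^k v) a Z^(k-e) p(-2^k r)`.  `s(l)² = s(2l)`:
`p(v) a Z^(-e) p(v - r) a Z^(-e) p(-r) = p(2^k v) a Z^(k-e) p(-2^k r)`.  With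
`Z^(-e) p(v-r) a = p((v-r) 2^(-(k-1)e)) Z^(-e) a = p((v-r) 2^(-(k-1)e)) a Z^(-k e)`:
`a p((v-r) 2^(-(k-1)e)) a = p(N v) a Z^(k-e) p(-2^k r) p(r) Z^(e + k e) = p(N v) a p(-N r 2^((k-1)(k-e))) Z^(k-e+e+k e)`. -/
def StITH : Prop := StIRU → StISC → ∀ (Λ : Type) [CommRing Λ] (G : Type) [Group G] (k : ℤ) (P : PP Λ G k)
  (v l r : Λ) (e : ℤ), P.Tri v l r e →
    P.Tri ((v - r) * P.up (-((k - 1) * e))) (P.N * v) (-(P.N * r * P.up ((k - 1) * (k - e)))) (k * (1 + e))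

/-- IYW.  The triangles `Y` and `W`: start from `S0 = (-1; -l, 2^(k-1) r, 1)`, `r = l - 1`, `c0 = r + 2^(1-k)`.

PROOF. `Y = Θ(S0)`: `v' = (-1 - 2^(k-1) r) 2^(-(k-1)) = -c0`, `l' = -N`, `r' = -N 2^(k-1) r 2^((k-1)(k-1)) = -N r 2^((k-1)k)`,
`e' = 2k`.  `W = Θ(Y)`: `v = (-c0 + N r 2^(k(k-1))) 2^(-2k(k-1))`, `l = -N c0`,
`r = N² r 2^(k(k-1)) 2^((k-1)(k-2k)) = N² r`, `e = k (2k+1)`. -/
def StIYW : Prop := StITH → StIRU → StISC → ∀ (Λ : Type) [CommRing Λ] (G : Type) [Group G] (k : ℤ) (P : PP Λ G k)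
  (r : Λ), P.Tri (-1) (-(r + 1)) (P.up (k - 1) * r) 1 →
    P.Tri (-(r + P.up (1 - k))) (-P.N) (-(P.N * r * P.up (k * (k - 1)))) (2 * k) ∧
    P.Tri ((-(r + P.up (1 - k)) + P.N * r * P.up (k * (k - 1))) * P.up (-(2 * k * (k - 1))))
      (-(P.N * (r + P.up (1 - k)))) (P.N * P.N * r) (k * (2 * k + 1))

/-- IT3.  The third triangle.

PROOF. If `(v; l, r, k e1)` is a triangle then `σ(r) := a p(r) a⁻¹ = p(-l) a p(v) Z^(-e1)`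
(`a p(r) = p(-l) a p(v) a Z^(-k e1)` and `a Z^(-k e1) = Z^(-e1) a`).
`W`: `σ(N² r) = p(N c0) a p(v_W) Z^(-(2k+1))`.  `Y` scaled by `i` (ISC):
`(-2^(ki) c0; -2^i N, -r N 2^(k(k-1+i)), k (2 - i))`, so `σ(-r N 2^(k(k-1+i))) = p(2^i N) a p(-2^(ki) c0) Z^(i-2)`.
`i = 1-k`: `σ(-rN) = p(2^(1-k) N) a p(-2^(k(1-k)) c0) Z^(-k-1)`.
`i = 2-k`: `σ(-rN 2^k) = p(2^(2-k) N) a p(-2^(k(2-k)) c0) Z^(-k)`, inverse `σ(rN 2^k) = Z^k p(2^(k(2-k)) c0) a⁻¹ p(-2^(2-k) N)`.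
`N² r = -rN + rN 2^k`, so `σ(N² r) = σ(-rN) σ(rN 2^k)`:
`p(N c0) a p(v_W) Z^(-(2k+1)) = p(2^(1-k) N) a p(-2^(k(1-k)) c0) Z⁻¹ p(2^(k(2-k)) c0) a⁻¹ p(-2^(2-k) N)`, and
`Z⁻¹ p(2^(k(2-k)) c0) = p(2^(1-k+2k-k²) c0) Z⁻¹ = p(2 · 2^(k(1-k)) c0) Z⁻¹`.  With `N c0 - 2^(1-k) N = N r`:
`a p(2^(k(1-k)) c0) Z⁻¹ a⁻¹ = p(N r) a p(v_W) Z^(-(2k+1)) p(2^(2-k) N) = p(N r) a p(v3) Z^(-(2k+1))`,
`v3 = v_W + 2^(3 - 2k²) N` (`-(k-1)(2k+1) + 2 - k = 3 - 2k²`).  Multiply by `a Z` on the right and by `p(-N r)` on the left: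
`a p(v3) Z^(-(2k+1)) a Z = p(-N r) a p(2^(k(1-k)) c0)`, `Z^(-(2k+1)) a = a Z^(-k(2k+1))`, so
`a p(v3) a = p(-N r) a p(2^(k(1-k)) c0) Z^(k(2k+1) - 1)`. -/
def StIT3 : Prop := StIRU → StISC → StIYW → StITH → ∀ (Λ : Type) [CommRing Λ] (G : Type) [Group G] (k : ℤ)
  (P : PP Λ G k) (r : Λ), P.Tri (-1) (-(r + 1)) (P.up (k - 1) * r) 1 →
    P.Tri ((-(r + P.up (1 - k)) + P.N * r * P.up (k * (k - 1))) * P.up (-(2 * k * (k - 1))) +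
        P.up (3 - 2 * k * k) * P.N)
      (-(P.N * r)) (P.up (k * (1 - k)) * (r + P.up (1 - k))) (k * (2 * k + 1) - 1)

/-- ICO.  Coincidence of two triangles.

PROOF. `s(l) = p(v) a Z^(-e) p(-r)` (see ITH), `s(-l) = p(v') a Z^(-e') p(-r')`; the product is `1`:
`a Z^(-e) p(v' - r) a = p(-v) p(r') Z^e'`, and `a Z^(-e) p(v' - r) a = a p((v'-r) 2^(-(k-1)e)) a Z^(-k e)`. -/
def StICO : Prop := StIRU → ∀ (Λ : Type) [CommRing Λ] (G : Type) [Group G] (k : ℤ) (P : PP Λ G k)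
  (v l r v' r' : Λ) (e e' : ℤ), P.Tri v l r e → P.Tri v' (-l) r' e' →
    P.a * P.p ((v' - r) * P.up (-((k - 1) * e))) * P.a = P.p (r' - v) * P.Z ^ (e' + k * e)

/-- IEN.  The end: `a p(x) a = p(z) Z^j` gives `Z^(k+1) = 1` and `p((2^k - 2) N x) = 1`.

PROOF. Conjugate by `f`: `a Z p(2x) a Z = p(2z) Z^j`, i.e. `a p(2^k x) a = p(2z) Z^(j-k-1)`.
`s(N x) = a⁻¹ p(N x) a = (a p(x) a)⁻¹ (a p(2^k x) a) = Z^(-j) p(-z) p(2z) Z^(j-k-1) = p(z'') Z^(-k-1)`, `z'' = 2^(-(k-1)j) z`.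
Conjugate by `f`: `Z⁻¹ s(2 N x) Z = p(2z'') Z^(-k-1)`, so `s(2Nx) = p(2^k z'') Z^(-k-1)`.  And
`s(2Nx) = s(Nx)² = p(z'' + 2^(-(k-1)(k+1)) z'') Z^(-2k-2)`.  So `Z^(k+1) = p(y)` for
`y = z'' + 2^(-(k-1)(k+1)) z'' - 2^k z''`.  `f` commutes with `Z`: `p(2y) = p(y)`, so `p(y) = 1` and `Z^(k+1) = 1`.
Then `s(Nx) = p(z'')`, `p(2^k z'') = s(2Nx) = p(2z'')`, so `p((2^k - 2) z'') = 1`.  For natural `k`, `m = 2^k - 2` is an integer and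
`s(m N x) = s(Nx)^m = p(m z'') = 1`, so `p(m N x) = 1`. -/
def StIEN : Prop := StIRU → ∀ (Λ : Type) [CommRing Λ] (G : Type) [Group G] (k : ℕ) (P : PP Λ G (k : ℤ))
  (x z : Λ) (j : ℤ), 1 ≤ k → P.a * P.p x * P.a = P.p z * P.Z ^ j →
    P.Z ^ (k + 1) = 1 ∧ P.p ((2 ^ k - 2 : Λ) * (P.N * x)) = 1

/-- INU.  Numbers.

PROOF. Let `d = gcd (B1, C1)` with `B1 = (2^k-1)(2^(h+k-1)-1)(2^(k(h+k-1))+1)`,
`C1 = (2^(k²-1)-1)/(2^(k-1)-1)` (an integer as `k-1 ∣ k²-1`).  Claim `d = 1`; then the order of `t` divides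
`gcd((2^(k-1)-1) B1, (2^(k-1)-1) C1) = 2^(k-1)-1` (`2^(k²-1) - 1 = (2^(k-1)-1) C1`).  Let `π` be a prime divisor of `B1` and `C1`, `o` = the
order of `2` mod `π` (`π` odd); `o ∣ k²-1`, so `gcd(o, k) = 1`.  `π ∣ 2^k-1`: `o ∣ k`, `o = 1`, `π ∣ 1`, impossible.
`π ∣ 2^(h+k-1)-1` or `π ∣ 2^(k(h+k-1))+1`: `o ∣ 2k(h+k-1)`, so `o ∣ 2(h+k-1)`.  `h`, `k` are odd, so `h+k-1` is odd;
`o ∣ (k-1)(k+1)`, `k+1 = 2^e`, so the odd part `o'` of `o` divides `k-1` and `h+k-1`, and `o ∈ {o', 2o'}`, `k-1` is even, so `o ∣ k-1`.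
So `2^(k-1) = 1` mod `π` and `C1 = Σ_{i=0}^{k} 2^(i(k-1)) = k+1 = 2^e` mod `π`, so `π = 2`, impossible. -/
def StINU : Prop := ∀ (G : Type) [Group G] (t : G) (h k e : ℕ), h % 2 = 1 → 3 ≤ e → k = 2 ^ e - 1 →
  t ^ ((2 ^ (k - 1) - 1) * ((2 ^ k - 1) * (2 ^ (h + k - 1) - 1) * (2 ^ (k * (h + k - 1)) + 1))) = 1 →
  t ^ (2 ^ (k * k - 1) - 1) = 1 → t ^ (2 ^ (k - 1) - 1) = 1

/-- ITT.  Assembly: in the group with presentation (B), `f = g^4`: `Z^(k+1) = 1`, `t^(2^(k-1)-1) = 1`, and the relation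
`(aZ)^(t^l) = a a^t`.

PROOF. `f = g^4`, `Z = f^(1-k)`, `l = 1 - 2^n`.  `a⁻¹ f a = f^k` (r1), `f⁻¹ t f = t²` (r2), `f⁻¹ a f = a Z`.
Relation R3 conjugated by `f` (`f` commutes with `g^β`): left `(t²)^(g^β) = (a_l t⁻¹)² = a_l (t⁻¹ a_l t) t⁻²`
(`a_l = cj a t l`), right `f⁻¹ a_l f · t⁻² = t^(-2l) a Z t^(2l) t⁻²`.  So `a_l a_(l+1) = t^(-2l) a Z t^(2l)`; conjugate by `t^-l`
(i.e. `t^l x t^-l`): `a (t⁻¹ a t) = t^-l a Z t^l`  (third claim).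
So `a t⁻¹ a = t^-l a Z t^(l-1)`.  IPX: `P`.  `S0 : Tri (-1) (-l) (2^(k-1) r) 1`, `r = l - 1 = -2^n` (move `Z` over `p(l-1)`).
IT3, IYW (`Y` scaled by `i = n`, ISC): the middle entry of T3 is `-N r = 2^n N`, the middle entry of `Y_n` is `-2^n N`.
ICO: `a p(x) a = p(z) Z^j` with `x = (-2^(kn) c0 - 2^(k(1-k)) c0) 2^(-(k-1) e3) = -c0 (2^(kn) + 2^(k(1-k))) 2^(..)`.
IEN: `Z^(k+1) = 1`, `p((2^k-2) N x) = 1`.  `c0 = -2^n + 2^(1-k) = -2^(1-k) (2^(n+k-1) - 1)`,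
`2^(kn) + 2^(k(1-k)) = 2^(k(1-k)) (2^(k(n+k-1)) + 1)`: up to a sign and a power of `2` (IRU (4)) `(2^k-2) N x` is the integer
`(2^(k-1)-1)(2^k-1)(2^(n+k-1)-1)(2^(k(n+k-1))+1)`, and `p(m) = t^m`.
`Z^(k+1) = f^(1-k²) = 1`, so `t = f^-(k²-1) t f^(k²-1) = t^(2^(k²-1))`.  INU with `h = n`. -/
def StITT : Prop := StIPX → StIRU → StISC → StITH → StIYW → StIT3 → StICO → StIEN → StINU →
  ∀ (n k β : ℕ), Par n k β → ∀ (G : Type) [Group G] (g a t : G), RelB n k β g a t →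
    ((g ^ 4) ^ (k - 1)) ^ (k + 1) = 1 ∧ t ^ (2 ^ (k - 1) - 1) = 1 ∧
    t ^ (-(1 - 2 ^ n : ℤ)) * (a * ((g ^ 4) ^ (k - 1))⁻¹) * t ^ (1 - 2 ^ n : ℤ) = a * (t⁻¹ * a * t)

/-- IZ2.  `Z` is central of order at most two.

PROOF. `f = g^4`, `Z = (f^(k-1))⁻¹`.  `f^-(k-1) t f^(k-1) = t^(2^(k-1)) = t`, so `Z` commutes with `t`.  `Z` commutes with `g`.
`a⁻¹ Z a = Z^k = Z⁻¹` (`Z^(k+1) = 1`), so `Z a = a Z⁻¹`, `Z⁻¹ a Z = a Z²`.  Conjugate `t^-l (aZ) t^l = a (t⁻¹ a t)` by `Z`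
(`Z⁻¹ x Z`): left: `t^-l a Z t^l Z²`; right `a Z² (t⁻¹ a t) Z² = a (t⁻¹ a t) Z⁻² Z² = a (t⁻¹ a t)`.  So `Z² = 1`, `Z = Z⁻¹` commutes
with `a`. -/
def StIZ2 : Prop := ∀ (G : Type) [Group G] (g a t : G) (k : ℕ) (l : ℤ), 1 ≤ k → a⁻¹ * g * a = g ^ k →
  (g ^ 4)⁻¹ * t * g ^ 4 = t ^ 2 → ((g ^ 4) ^ (k - 1)) ^ (k + 1) = 1 → t ^ (2 ^ (k - 1) - 1) = 1 →
  t ^ (-l) * (a * ((g ^ 4) ^ (k - 1))⁻¹) * t ^ l = a * (t⁻¹ * a * t) →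
  (g ^ 4) ^ (k - 1) * (g ^ 4) ^ (k - 1) = 1 ∧ (g ^ 4) ^ (k - 1) * a = a * (g ^ 4) ^ (k - 1) ∧
  (g ^ 4) ^ (k - 1) * t = t * (g ^ 4) ^ (k - 1) ∧ (g ^ 4) ^ (k - 1) * g = g * (g ^ 4) ^ (k - 1)

/-- ICM.  The conjugates commute.

PROOF. `a_i = cj a t i`, all are involutions; conjugating the hypothesis by `t^m`: `a_(m+1-q) = a_m a_(m+1)`.  Let
`D = {m | a_0 commutes with a_m}`; as conjugation by `t^j` maps `a_i` to `a_(i+j)`, `m ∈ D` iff all `a_j, a_(j+m)` commute, and `D = -D`.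
`a_(1-q) = a_0 a_1` is an involution, so `a_0`, `a_1` commute, and `a_1` commutes with `a_0 a_1 = a_(1-q)`, so `q ∈ D`; `0 ∈ D`.
Induction on `i : ℕ`: `i ∈ D` and `q - i ∈ D`.  Step: `a_(-i) = a_(q-i-1) a_(q-i)` (`m + 1 = q - i`), so
`a_(q-i-1) = a_(-i) a_(q-i)` commutes with `a_0`: `q - i - 1 ∈ D`; `a_(i+1-q) = a_i a_(i+1)`, so `a_(i+1) = a_i a_(i+1-q)` commutes with
`a_0` (`i + 1 - q = -(q - i - 1) ∈ D`).  So `D = ℤ`. -/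
def StICM : Prop := ∀ (G : Type) [Group G] (a t : G) (q : ℤ), a * a = 1 →
  cj a t (1 - q) = a * cj a t 1 → ∀ i j : ℤ, cj a t i * cj a t j = cj a t j * cj a t i

/-- IQC.  The relations `RelC` when `f^(k-1) = 1`.

PROOF. `f = g^4`, `f^(k-1) = 1`.  `fa`: `a⁻¹ f a = f^k = f`.  `ft` = r2.  `al`: the last hypothesis with `f^(k-1) = 1`.
`a2`: conjugating `al` by `f` (`f⁻¹ a_i f = a_(2i)`): `a_(2l) = a_0 a_2`; conjugating `al` by `t^l`: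
`a_(2l) = a_l a_(l+1) = (a_0 a_1)(a_1 a_2)` (`l = 1 - 2^n`, `a_(l+1) = a_1 a_2`).  So `a_1² = 1`, `a² = 1`.
`gfin`: `g = a⁻¹ (a⁻¹ g a) a = g^(k²)` (`a² = 1`), `N = k² - 1`.
`k - 1 ∣ 2β` (`kb`, `k` odd), so `f^(2β) = 1`: `th2` (`(g^β)^8 = f^(2β)`).
`w2`: `g^β a g^β a = g^β (a⁻¹ g a)^β = g^β g^(kβ) = g^(β (k+1)) = f^(β 2^(e-2)) = (f^(2β))^(2^(e-3)) = 1`.
`wt`: `(g^β a)⁻¹ t (g^β a) = a (a_l t⁻¹) a` (r3, `a = a⁻¹`) `= a a (t⁻¹ a t) t⁻¹ a = t⁻¹ a a = t⁻¹`.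
`tht`: `(g^β)^4 = f^β`, `f^-β t f^β = t^(2^β)`.  `tfin`: `N = 2^(k-1) - 1 > 0`.  `com`: ICM with `q = 2^n`. -/
def StIQC : Prop := StICM → ∀ (n k β : ℕ), Par n k β → ∀ (G : Type) [Group G] (g a t : G), RelB n k β g a t →
  (g ^ 4) ^ (k - 1) = 1 → t ^ (2 ^ (k - 1) - 1) = 1 →
  t ^ (-(1 - 2 ^ n : ℤ)) * a * t ^ (1 - 2 ^ n : ℤ) = a * (t⁻¹ * a * t) → RelC n β g a t

/-- IPI.  Assembly of part (i).

PROOF. ITT, IZ2; `C = Subgroup.zpowers ((g^4)^(k-1))`, normal (central: it commutes with the generators `g, a, t`), finite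
(order ≤ 2); the images of `g, a, t` in `G ⧸ C` satisfy `RelB`, and the hypotheses of IQC. -/
def StIPI : Prop := StIZ2 → StIQC →
  (∀ (n k β : ℕ), Par n k β → ∀ (G : Type) [Group G] (g a t : G), RelB n k β g a t →
    ((g ^ 4) ^ (k - 1)) ^ (k + 1) = 1 ∧ t ^ (2 ^ (k - 1) - 1) = 1 ∧
    t ^ (-(1 - 2 ^ n : ℤ)) * (a * ((g ^ 4) ^ (k - 1))⁻¹) * t ^ (1 - 2 ^ n : ℤ) = a * (t⁻¹ * a * t)) →
  ∀ (n k β : ℕ), Par n k β → ∀ (G : Type) [Group G] (g a t : G), RelB n k β g a t →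
  Subgroup.closure {g, a, t} = (⊤ : Subgroup G) →
  ∃ (C : Subgroup G) (_ : C.Normal), Finite C ∧
    RelC n β (QuotientGroup.mk g : G ⧸ C) (QuotientGroup.mk a) (QuotientGroup.mk t)

end Pool.Agent.Helper43.RK
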