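import Mathlib
import Pool.Agent.Helper43.RK.Defs

/-!
# Statements of project RK, part (ii)

Notation in the proofs: `a_r = D.a r`, `b_r = D.b r`, `x^g = g⁻¹ x g`, `k` = fixed ring of `bar`,
`Tr r = r + bar r`, `p = a_y`, `b = b_1`, `a = a_1`, `t(y) = Y`, `t(ȳ) = Yb`, `t(s) = S`, `t(d) = Q`,
`[x, y] = x⁻¹ y⁻¹ x y` (for involutions `x y x y`).  `R` has characteristic two (`D.two`), all `a_r`, `b_r`
are involutions (`D.aa`, `D.bb`).  If `x`, `y`, `x y` are involutions then `x`, `y` commute.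
-/

set_option autoImplicit false

namespace Pool.Agent.Helper43.RK

/-- RING.  (1) the additive span of the powers of `s` is `R`; (2) the additive span of the powers of `e` is
the fixed ring; (3) every `r` is `α + β y` and also `α + β ȳ` with `α, β` fixed.

PROOF. (1) Let `T0 = AddSubgroup.closure {s^i}`, it is a subring. `1 + s = 1/ȳ` (`s = y/ȳ`, `y + ȳ = 1`), so
`1/ȳ ∈ T0`; `1/ȳ` is a unit of a finite ring, so it has finite order `m` and `ȳ = (1/ȳ)^(m-1) ∈ T0`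
(`isOfFinOrder_of_finite`, `pow_orderOf_eq_one`), so `y = 1 + ȳ ∈ T0` and `T0 = ⊤` by `D.gen`.  `T` contains
all `s^i`.
(3) `β = r + bar r` is fixed, `α = r + β y`: `bar α = bar r + β ȳ = bar r + β + β y = r + β y`.
`α + β ȳ` : replace `α` by `α + β`.
(2) Let `K0 = AddSubgroup.closure {e^j}`, a subring, contained in the fixed ring (`D.bar_e`);
`d = y ȳ = e^(m-1) ∈ K0` for `m` the order of the unit `e` (note `D.e⁻¹ = y ȳ`).  `{α + β y : α, β ∈ K0}` is a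
subring: `y² = y + d` (`D.y2`).  It contains `y`, so it is `⊤` by `D.gen`.  For `r` fixed write
`r = α + β y`, `α, β ∈ K0`; apply `bar`: `r = α + β (1 + y) = r + β`, so `β = 0` and `r = α ∈ K0`. -/
def StRS1 : Prop := ∀ (R : Type) [CommRing R] [Finite R] (G : Type) [Group G] (D : Dt R G),
  (∀ T : AddSubgroup R, (∀ i : ℕ, (D.s : R) ^ i ∈ T) → T = ⊤) ∧
  (∀ T : AddSubgroup R, (∀ i : ℕ, (D.e : R) ^ i ∈ T) → ∀ r, D.bar r = r → r ∈ T) ∧
  (∀ r : R, ∃ α β : R, D.bar α = α ∧ D.bar β = β ∧ r = α + β * (D.y : R)) ∧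
  (∀ r : R, ∃ α β : R, D.bar α = α ∧ D.bar β = β ∧ r = α + β * (D.yb : R))

/-- RZ.  `z = (p b)³` satisfies `z² = 1` and commutes with all `a_r`, `b_r`.

PROOF. `p = a_y`, `b = b_1`, `a = a_1`, `c = [a, b] = a b a b` an involution, so `c` commutes with `a`, `b`
and `a^b = b a b = a c`.  `a^p = a`; `c p c = a_ȳ = a p` gives `p c p = a c`.  So conjugation by `p`
fixes `a` and exchanges `c`, `a c`; conjugation by `b` fixes `c` and exchanges `a`, `a c`; so conjugation by `p b` is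
a 3-cycle on `a, c, a c` and `z` commutes with `a` and `c`.  `z^p = z^b = (b p)³ = z⁻¹`.
Put `Z(x, v) = (a_x b_v)³`.  `z^c = z` gives `Z(y, 1) = Z(ȳ, 1)` (A).  Conjugation by `w` exchanges `a_x`, `b_x`,
so `w Z(x,v) w = (b_x a_v)³ = Z(v, x)⁻¹` and (A) gives `Z(1, y) = Z(1, ȳ)`.  Conjugate this by `Y`
(`a_r ↦ a_{yr}`, `b_r ↦ b_{r/y}`): `Z(y, 1) = Z(y, ȳ/y)` (B).  Conjugate (A) by `S` (`a_r ↦ a_{s r}`,
`b_r ↦ b_{r/s}`): `z^S = Z(s y, 1/s) = Z(s ȳ, 1/s) = Z(y, ȳ/y)` as `s ȳ = y`, `1/s = ȳ/y`.  So `z^S = z` by (B).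
As `z` commutes with `a_1` it commutes with all `a_{s^i}`, so by StRS1 (1), applied to
`{r | z commutes with a_r}`, with all `a_r`.  So `z = z^p = z⁻¹`, `z² = 1`, and `z^b = z⁻¹ = z`, so `z` commutes with
`b_1`, with all `b_{s^i}` (conjugate by powers of `S⁻¹`), so with all `b_r`. -/
def StRZ : Prop := StRS1 → ∀ (R : Type) [CommRing R] [Finite R] (G : Type) [Group G] (D : Dt R G),
  D.z * D.z = 1 ∧ D.Cen D.z

/-- RN.  The case `z = 1`: the element `n`.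

PROOF. `p b p b p b = 1` gives `n = p b p = b p b`, `n² = p b p p b p = 1`,
`n p n = (p b p) p (p b p) = p b p b p = p (b p b) p = p (p b p) p = b`.
`n a n = p b p a p b p = p (b a b) p = p (a c) p = a (p c p) = a a c = c` (facts on `a, c, p, b` in RZ:
`p` commutes with `a`, `b a b = a c`, `p c p = a c`).
`β = b_{1/y}`; `c_y = c S`.  Conjugating `c = [a_1, b_1]` by `Y`: `Y⁻¹ c Y = [a_y, β]` and
`Y⁻¹ c Y = c (c Y⁻¹ c) Y = c Yb⁻¹ Y = c S = c_y`.  So `c_y = [a_y, β]` is an involution commuting with `a_y`, `β` and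
`p β p = c_y β`.  `c_y b_r c_y = S⁻¹ c b_r c S = b_{(bar r)/s}`, so `c_y b c_y = b_{ȳ/y} = b_{1 + 1/y} = b β`, hence
`b c_y b = β c_y` .  `n β n = (b p b) β (b p b) = b (p β p) b = b c_y β b = (b c_y b) β = β c_y β = c_y`.
`n S n = n c c_y n = (n c n)(n c_y n) = a β` (as `c² = 1`, `S = c c_y`, `n c n = a`, `n c_y n = β`).
`a_s = S⁻¹ a S`, so `n a_s n = (a β)⁻¹ c (a β) = β a c a β = β c β = c (c β c) β = c b_{1/ȳ} b_{1/y} = c b_e`
(`D.inv_sum`).  `s = 1 + e y` (`D.s_eq`), so `n a_{e y} n = (n a n)(n a_s n) = c c b_e = b_e`. -/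
def StRN : Prop := ∀ (R : Type) [CommRing R] (G : Type) [Group G] (D : Dt R G), D.z = 1 →
  D.n * D.n = 1 ∧ D.n = D.b 1 * D.a (D.y : R) * D.b 1 ∧ D.n * D.a (D.y : R) * D.n = D.b 1 ∧
  D.n * D.a 1 * D.n = D.c ∧ D.n * D.b ((D.y⁻¹ : Rˣ) : R) * D.n = D.c * D.S ∧
  D.n * D.S * D.n = D.a 1 * D.b ((D.y⁻¹ : Rˣ) : R) ∧
  D.n * D.a (D.s : R) * D.n = D.c * D.b (D.e : R) ∧
  D.n * D.a ((D.e : R) * (D.y : R)) * D.n = D.b (D.e : R)

/-- RT.  General facts on `τ l = n a_l n` for fixed `l`.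

PROOF. `n² = 1`, `n a_1 n = c`, `n c n = a_1`, `n b_1 n = a_y` (StRN).  `τ_l` is an involution, additive in `l`.
As `bar l = l`, `c` commutes with `a_l`; so `τ_l = n a_l n` commutes with `n c n = a_1`; `a_l` commutes with `a_1`
so `τ_l` commutes with `n a_1 n = c`; `a_l` commutes with `a_y` so `τ_l` commutes with `n a_y n = b_1`.
`τ' = [a_l, b_1]`: `p τ' p = p a_l b a_l b p = a_l (p b) a_l (b p)` and `n a_l n = p b p a_l p b p = p b a_l b p`,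
so `p τ' p = a_l τ_l`.  `p τ_l p = b a_l b = a_l (a_l b a_l b) = a_l τ'`.
If `n a_{l y} n = b_l`: `n [a_1, b_l] n = [c, a_{l y}] = (c a_{l y} c) a_{l y} = a_{l ȳ + l y} = a_l`, so `[a_1, b_l] = τ_l`;
and `a_m` commutes with `a_{l y}`, so `τ_m` commutes with `n a_{l y} n = b_l`. -/
def StRT : Prop := StRN → ∀ (R : Type) [CommRing R] (G : Type) [Group G] (D : Dt R G), D.z = 1 →
  ∀ l : R, D.bar l = l →
  D.tau l * D.tau l = 1 ∧ D.tau l * D.a 1 = D.a 1 * D.tau l ∧ D.tau l * D.c = D.c * D.tau l ∧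
  D.tau l * D.b 1 = D.b 1 * D.tau l ∧ (∀ m, D.tau (l + m) = D.tau l * D.tau m) ∧
  D.a (D.y : R) * (D.a l * D.b 1 * D.a l * D.b 1) * D.a (D.y : R) = D.a l * D.tau l ∧
  D.a (D.y : R) * D.tau l * D.a (D.y : R) = D.a l * (D.a l * D.b 1 * D.a l * D.b 1) ∧
  (D.n * D.a (l * (D.y : R)) * D.n = D.b l →
    D.a 1 * D.b l * D.a 1 * D.b l = D.tau l ∧ ∀ m, D.tau m * D.b l = D.b l * D.tau m)

/-- RD.  The case `z = 1`: `δ = [a_1, b_e][a_e, b_1]` satisfies `δ² = 1` and commutes with all `a_r`, `b_r`.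

PROOF. `e` is fixed (`D.bar_e`), `n a_{e y} n = b_e` (StRN), so by StRT (last part, `l = e`)
`τ0 := τ_e = [a_1, b_e]` and all `τ_m` commute with `b_e`.  Let `τ' = [a_e, b_1]`.  `Q τ0 Q⁻¹ = [a_e, b_1] = τ'`
(`D.aQinv`, `D.bQinv`: `a_1 ↦ a_e`, `b_e ↦ b_1`), so `τ'` is an involution, and
`w τ0 w = [b_1, a_e] = τ'⁻¹ = τ'`.  So also `w τ' w = τ0`.
`a_e` commutes with `τ'` (`τ' = a_e · b a_e b` is an involution, product of the involutions `a_e`, `b a_e b`).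
`p τ' p = a_e τ0` (StRT) is an involution, so `a_e` commutes with `τ0`.  `p τ0 p = a_e τ'`.
`δ = τ0 τ'`.  (i) `p δ p = a_e τ' a_e τ0 = τ' τ0 = δ⁻¹`.  (ii) `δ` commutes with `b_1`: `τ0` does by StRT,
`b τ' b = τ'⁻¹ = τ'`.  (iii) `n τ0 n = a_e`; `n τ' n = p b p τ' p b p = p (b a_e b)(b τ0 b) p = p a_e τ' τ0 p
= a_e (a_e τ0)(a_e τ') = a_e τ0 τ'`; so `n δ n = a_e a_e τ0 τ' = δ`.  (iv) as `n = b p b`, by (i), (ii)
`n δ n = δ⁻¹`.  So `δ² = 1`.
`δ` commutes with `a_1` and `b_1`: `τ0` commutes with `a_1`, `b_1` (StRT), `τ' = w τ0 w` commutes with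
`w b_1 w = a_1`, `w a_1 w = b_1`.  `δ` commutes with `p = a_y` by (i), with `c = [a_1, b_1]`, with `n`.
`δ` commutes with `b_e`: `τ0` does, `τ' = w τ0 w` commutes with `w a_e w = b_e`.  So `δ` commutes with
`a_{e y} = n b_e n`.  `w δ w = τ' τ0 = δ⁻¹ = δ`, so `δ` commutes with `b_{e y} = w a_{e y} w`.
`1/y = e ȳ = e + e y`, so `δ` commutes with `β = b_{1/y}`, so with `a_1 β`, so with `S = n (a_1 β) n` (StRN).
So `{r | δ commutes with a_r}` contains all `s^i` (`a_{s r} = S⁻¹ a_r S`), it is everything by StRS1 (1); same for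
`b` (`b_{s r} = S b_r S⁻¹`), or apply `w`. -/
def StRD : Prop := StRS1 → StRN → StRT → ∀ (R : Type) [CommRing R] [Finite R] (G : Type) [Group G]
  (D : Dt R G), D.z = 1 → D.del * D.del = 1 ∧ D.Cen D.del

/-- RI1.  The case `z = 1`, `δ = 1`: `1` and `e` are good.

PROOF. `Gd 1`: `n a_y n = b_1`, `τ_1 = n a_1 n = c` which acts as `bar` (`D.hac`, `D.hbc`; `r + 1 (r + bar r) = bar r`
by `D.two`), and `c Y c = Yb`, `c Yb c = Y`, `D.YYb` give `c Q = Q c`.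
`Gd e`: `n a_{e y} n = b_e` (StRN).  With the notation of RD, `δ = 1` gives `τ' = τ0` (`τ'` is an involution).
`Q τ0 Q⁻¹ = τ' = τ0`, so `τ0` commutes with `Q`.  `τ0` commutes with `a_1` (StRT), so, conjugating by powers of `Q⁻¹`
(`Q a_r Q⁻¹ = a_{e r}`), with all `a_{e^i}`, so with all `a_α`, `α` fixed (StRS1 (2)).  By StRT `p τ0 p = a_e τ' = a_e τ0`,
so `τ0 p τ0 = p a_e`, i.e. `τ0 a_y τ0 = a_{y + e}`; conjugating by powers of `Q⁻¹`: `τ0 a_{e^i y} τ0 = a_{e^i y + e^i e}`, so by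
additivity (StRS1 (2)) `τ0 a_{γ y} τ0 = a_{γ y + γ e}` for all fixed `γ`.  With StRS1 (3), `r = α + γ y`, `Tr r = γ`, this
is `ta`.  `tb`: `w τ0 w = τ' = τ0` (RD), `b_r = w a_r w`. -/
def StRI1 : Prop := StRS1 → StRN → StRT → StRD → ∀ (R : Type) [CommRing R] [Finite R] (G : Type) [Group G]
  (D : Dt R G), D.z = 1 → D.del = 1 → D.Gd 1 ∧ D.Gd (D.e : R)

/-- RIS.  The induction step: if `e` and `l = e^j` are good then `e l` is good.

PROOF. `l s = l + l e y`, `a_{l s} = S⁻¹ a_l S`, so `n a_{l s} n = (a_1 β)⁻¹ τ_l (a_1 β) = β τ_l β` (`n S n = a_1 β`,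
`β = b_{1/y}`, `τ_l` commutes with `a_1`) `= β (τ_l β τ_l) τ_l = β b_{1/y + l e} τ_l = b_{l e} τ_l` (`tb`, `Tr (1/y) = e`
is `D.inv_sum`, `D.bar_yinv`).  So `n a_{l e y} n = (n a_{l s} n)(n a_l n) = b_{l e} τ_l τ_l = b_{l e}`: this is `ex`.
StRT: `[a_1, b_{l e}] = τ_{l e}`.  `n [a_e, b_l] n = [τ_e, a_{l y}] = (τ_e a_{l y} τ_e) a_{l y} = a_{e l}` by `ta` for `e`
(`n b_l n = a_{l y}`, `Tr (l y) = l`), so `[a_e, b_l] = τ_{e l}`.  Conjugating by `Q⁻¹`: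
`Q [a_1, b_{l e}] Q⁻¹ = [a_e, b_l]` so `τ_{e l}` commutes with `Q`: this is `tQ`.  With `Q^(j+1)`:
`Q^(j+1) [a_1, b_{l e}] Q^-(j+1) = [a_{l e}, b_1]`, so `[a_{l e}, b_1] = τ_{l e}` and StRT gives
`p τ_{l e} p = a_{l e} τ_{l e}`, i.e. `τ_{l e} a_y τ_{l e} = a_{y + l e}`.  `τ_{l e}` commutes with `a_1`.  As in RI1, conjugating by
powers of `Q` and StRS1 give `ta`.  `w τ_{l e} w = w [a_1, b_{l e}] w = [b_1, a_{l e}] = [a_{l e}, b_1]⁻¹ = τ_{l e}`, so `tb`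
follows from `ta`. -/
def StRIS : Prop := StRS1 → StRN → StRT → ∀ (R : Type) [CommRing R] [Finite R] (G : Type) [Group G]
  (D : Dt R G), D.z = 1 → D.Gd (D.e : R) → ∀ j : ℕ, D.Gd ((D.e : R) ^ j) → D.Gd ((D.e : R) ^ (j + 1))

/-- RAL.  All fixed `l` are good (`z = 1`, `δ = 1`), and `[a_m, b_l] = τ_{l m}` for fixed `l`, `m`.

PROOF. By StRI1, StRIS all `e^j` are good.  The good fixed elements form an additive subgroup: `Gd 0` is
clear; if `l, m` are good then `n a_{(l + m) y} n = b_l b_m`, `τ_{l+m} = τ_l τ_m` (StRT) which acts as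
`r ↦ r + l Tr r ↦ (r + l Tr r) + m Tr (r + l Tr r) = r + (l + m) Tr r` (`Tr (l Tr r) = 0` as `l` is fixed).
StRS1 (2).  Commutator: `n [a_m, b_l] n = [τ_m, a_{l y}] = (τ_m a_{l y} τ_m) a_{l y} = a_{m Tr (l y)} = a_{m l}`. -/
def StRAL : Prop := StRS1 → StRN → StRT → StRI1 → StRD → StRIS → ∀ (R : Type) [CommRing R] [Finite R] (G : Type)
  [Group G] (D : Dt R G), D.z = 1 → D.del = 1 → (∀ l, D.bar l = l → D.Gd l) ∧
  ∀ l m, D.bar l = l → D.bar m = m → D.a m * D.b l * D.a m * D.b l = D.tau (l * m)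

/-- RX.  `X l = Y⁻¹ τ_{y ȳ l} Y` and its action, `l` fixed.

PROOF. `y ȳ l` is fixed, `X l` is an involution, additive.  `X a_r X = Y⁻¹ τ (Y a_r Y⁻¹) τ Y = Y⁻¹ τ a_{r/y} τ Y
= Y⁻¹ a_{r/y + y ȳ l Tr (r/y)} Y = a_{r + y ȳ l y Tr (r/y)}`;  `X b_r X = Y⁻¹ τ b_{y r} τ Y =
b_{r + (1/y) y ȳ l Tr (y r)} = b_{r + l ȳ Tr (y r)}`.  `[a_{m y}, b_{l ȳ}]` is the conjugate by `Y` of
`[a_m, b_{l ȳ y}] = τ_{l m y ȳ}` (second hypothesis), so it is `X (l m)`. -/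
def StRX : Prop := ∀ (R : Type) [CommRing R] (G : Type) [Group G] (D : Dt R G),
  D.n * D.n = 1 → (∀ l, D.bar l = l → D.Gd l) →
  (∀ l m, D.bar l = l → D.bar m = m → D.a m * D.b l * D.a m * D.b l = D.tau (l * m)) →
  ∀ l, D.bar l = l →
    D.X l * D.X l = 1 ∧ (∀ m, D.X (l + m) = D.X l * D.X m) ∧
    (∀ r, D.X l * D.a r * D.X l = D.a (r + l * ((D.y : R) * (D.yb : R) * (D.y : R)) *
      (((D.y⁻¹ : Rˣ) : R) * r + D.bar (((D.y⁻¹ : Rˣ) : R) * r)))) ∧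
    (∀ r, D.X l * D.b r * D.X l = D.b (r + l * (D.yb : R) * ((D.y : R) * r + D.bar ((D.y : R) * r)))) ∧
    (∀ m, D.bar m = m → D.a (m * (D.y : R)) * D.b (l * (D.yb : R)) * D.a (m * (D.y : R)) *
      D.b (l * (D.yb : R)) = D.X (l * m))

/-- SL2.  In a finite commutative ring every matrix of determinant `1` is
`E12(α) E21(β) E12(γ) diag(u, 1/u)`, in coordinates.

PROOF. Some power `f = p^N`, `N ≥ 1`, is idempotent (finite monoid).  `x = p - α r` with `α = -(1 - f)`, i.e.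
`x = p + (1 - f) r`, is a unit: if it lies in a maximal ideal `m` (`exists_max_ideal_of_mem_nonunits`) then: if
`p ∈ m` then `f ∈ m`, `1 - f ∉ m`, so `r ∈ m`, and `1 = p s - q r ∈ m`; if `p ∉ m` then `f = p^N ∉ m`, `f (1 - f) = 0 ∈ m`, so
`1 - f ∈ m`, so `p ∈ m`.  Take `u = x`, `β = r/x`, `γ = x (q - α s)`:  check `p = (1 + α β) u = x + α r`,
`r = β u`, `s = (β γ + 1)/u`: `β γ + 1 = r (q - α s) + 1 = r q - α r s + p s - q r = s (p - α r) = s x`,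
`q = ((1 + α β) γ + α)/u`: `(1 + α β) γ + α = (x + α r)(q - α s) + α = p q - α p s + α = p q - α (1 + q r) + α
= q (p - α r) = q x`. -/
def StSL2 : Prop := ∀ (k : Type) [CommRing k] [Finite k] (p q r s : k), p * s - q * r = 1 →
  ∃ (α β γ : k) (u : kˣ), p = (1 + α * β) * (u : k) ∧ q = ((1 + α * β) * γ + α) * ((u⁻¹ : kˣ) : k) ∧
    r = β * (u : k) ∧ s = (β * γ + 1) * ((u⁻¹ : kˣ) : k)

/-- RH.  Big cell of the rank one group `H1 = <a_{γ y}, b_γ : γ fixed>`.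

PROOF. For fixed `λ, μ, γ`: `a_{γ y} (τ_λ a_μ) a_{γ y} = τ_λ a_{μ + λ γ}` (from `τ_λ a_{γ y} τ_λ = a_{γ y + λ γ}`),
`b_γ (τ_λ a_μ) b_γ = τ_{λ + γ μ} a_μ` (`τ_λ` commutes with `b_γ` by `tb`; `b_γ a_μ b_γ = a_μ [a_μ, b_γ] = a_μ τ_{γ μ}`; `τ_λ` commutes with `a_μ` by
`ta`).  So they act on row vectors `(λ, μ)` as `E12(γ) = (1 γ; 0 1)` and `E21(γ) = (1 0; γ 1)`.
`a_{γ y} (X_λ b_{μ ȳ}) a_{γ y} = X_{λ + γ μ} b_{μ ȳ}` (`X_λ` commutes with `a_{γ y}` as `Tr γ = 0`;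
`a_{γ y} b_{μ ȳ} a_{γ y} = [a_{γ y}, b_{μ ȳ}] b_{μ ȳ} = X_{γ μ} b_{μ ȳ}`; `X_λ` commutes with `b_{μ ȳ}` as `Tr (μ y ȳ) = 0`),
`b_γ (X_λ b_{μ ȳ}) b_γ = X_λ b_{(μ + λ γ) ȳ}` (`X_λ b_γ X_λ = b_{γ + λ γ ȳ}`).  So they act on `(λ, μ)` as
`E21(γ) = J E12(γ) J` and `E12(γ) = J E21(γ) J`, `J` exchanging the coordinates.
By induction (`Subgroup.closure_induction`) every `h ∈ H1` has `p, q, r, s` fixed with `p s - q r = 1`,
`h⁻¹ τ_λ a_μ h = τ_{λ p + μ r} a_{λ q + μ s}` and `h⁻¹ X_λ b_{μ ȳ} h = X_{λ s + μ q} b_{(λ r + μ p) ȳ}` for all fixed `λ, μ`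
(call this property P(h; p, q, r, s); it is multiplicative; generators are involutions; inverses by
`(s, -q, -r, p)`, or note that `H1` is generated as a monoid by the generators).  Apply StSL2 to the finite ring
`k = RingHom.eqLocus D.bar (RingHom.id R)` and put `t0 = (a_{α y} b_β a_{γ y})⁻¹ h`: `P(t0; u, 0, 0, 1/u)`.  So
`t0⁻¹ a_μ t0 = a_{μ/u}` (take `λ = 0`; `τ_0 = 1`), `t0⁻¹ τ_λ t0 = τ_{λ u}`, `t0⁻¹ X_λ t0 = X_{λ/u}`, `t0⁻¹ b_{μ ȳ} t0 = b_{μ u ȳ}`.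
As `[a_μ, X_λ] = a_μ (X_λ a_μ X_λ) = a_{λ y ȳ y μ Tr (1/y)} = a_{λ μ y}` (`Tr (1/y) = e = 1/(y ȳ)`), `t0⁻¹ a_{μ y} t0 = a_{μ y / u²}`, and
`[b_{μ ȳ}, τ_λ] = b_{λ μ}` gives `t0⁻¹ b_μ t0 = b_{μ u²}`.  With StRS1 (3) (`r = α' + β' y`, and for `b`: `r = α' + β' ȳ`) `t0⁻¹` maps
all `a_r` to `a`'s, all `b_r` to `b`'s; the same formulas with `u⁻¹` for the inverse (or finiteness of `R`). -/
def StRH : Prop := StRS1 → StRX → StSL2 → ∀ (R : Type) [CommRing R] [Finite R] (G : Type) [Group G]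
  (D : Dt R G), D.n * D.n = 1 → (∀ l, D.bar l = l → D.Gd l) →
  (∀ l m, D.bar l = l → D.bar m = m → D.a m * D.b l * D.a m * D.b l = D.tau (l * m)) →
  ∀ h ∈ D.H1, ∃ (α β γ : R) (t0 : G), D.InL t0 ∧ D.bar α = α ∧
    h = D.a (α * (D.y : R)) * D.b β * D.a γ * t0

/-- RM.  `G0 ⊆ A L B A`.

PROOF. Let `M` be the set of all `a_{r1} ℓ b_{r2} a_{r3}`, `InL ℓ` (`InL` is closed under products and inverses and
contains `1`, `τ_l` (by `Gd`), `X_l` (StRX) for fixed `l`, and `Y`, `Yb`).  `1 ∈ M`.  `M` is closed under right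
multiplication by `a_r`, and by `ℓ'` with `InL ℓ'` (move `ℓ'` to the left over `a_{r3}`, `b_{r2}`).  Right
multiplication by `b_μ`, `μ` fixed: write `r3 = x1 + x2 y`, `r2 = z2 + z1 ȳ` (StRS1).  `a_{x1} b_μ = b_μ a_{x1} τ_{x1 μ}`
(`b_μ a_{x1} b_μ = a_{x1} [a_{x1}, b_μ]`).  So the product is
`a_{r1} ℓ b_{z1 ȳ} h a_{x1} τ_{x1 μ}` with `h = b_{z2} a_{x2 y} b_μ ∈ H1`, `h = a_{α y} b_β a_γ t0` by the last hypothesis.
`b_{z1 ȳ} a_{α y} = a_{α y} X_{α z1} b_{z1 ȳ}` (StRX, last part: `a_{α y} b_{z1 ȳ} a_{α y} b_{z1 ȳ} = X_{z1 α}`, an involution;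
`X` commutes with `b_{z1 ȳ}`).  Then `a_{r1} ℓ a_{α y} = a_{r1} a_{r'} ℓ`, `ℓ X ∈ L`, `b_{z1 ȳ} b_β = b_{z1 ȳ + β}`, and the rest is
right multiplication by `a_γ`, `t0`, `a_{x1}`, `τ`.
For `b_{μ ȳ} = Yb b_μ Yb⁻¹` (`D.bYbinv`) use closure under `Yb`, `b_μ`, `Yb⁻¹`.  So `M` is closed under right
multiplication by all `b_r` (StRS1), and `G0 ⊆ M` by `Subgroup.closure_induction_right` (generators are involutions). -/
def StRM : Prop := StRS1 → StRX → ∀ (R : Type) [CommRing R] [Finite R] (G : Type) [Group G]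
  (D : Dt R G), D.n * D.n = 1 → (∀ l, D.bar l = l → D.Gd l) →
  (∀ l m, D.bar l = l → D.bar m = m → D.a m * D.b l * D.a m * D.b l = D.tau (l * m)) →
  (∀ h ∈ D.H1, ∃ (α β γ : R) (t0 : G), D.InL t0 ∧ D.bar α = α ∧
    h = D.a (α * (D.y : R)) * D.b β * D.a γ * t0) →
  ∀ g ∈ D.G0, ∃ (r1 r2 r3 : R) (l : G), D.InL l ∧ g = D.a r1 * l * D.b r2 * D.a r3

/-- RC.  A group generated by finitely many elements of order ≤ 2, with center of finite index, is finite.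

PROOF. Schur: the commutator subgroup of a group with center of finite index is finite (Mathlib,
`Mathlib/GroupTheory/Schreier.lean`: finite `commutatorSet` gives finite `commutator`; the commutator `[g, h]` depends
only on `g`, `h` modulo the center, so `commutatorSet` is finite).  `Abelianization H` is a commutative group generated by
finitely many elements of order ≤ 2, so it is finite (finitely generated commutative torsion group,
`CommGroup.finite_of_fg_torsion`).  So `H` is finite (`commutator H` finite and `H / commutator H` finite). -/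
def StRC : Prop := ∀ (H : Type) [Group H] (S : Set H), S.Finite → (∀ s ∈ S, s * s = 1) →
  Subgroup.closure S = ⊤ → (Subgroup.center H).FiniteIndex → Finite H

/-- RF.  `G0 ⊆ A L B A` implies that `G0` is finite.

PROOF. (a) Let `C = {g ∈ G0 | Cen g}`, a central subgroup of `G0`.  For `g ∈ G0` write `g = a_{r1} ℓ b_{r2} a_{r3}`; then
`ℓ ∈ G0`.  Send `g` to `(r1, r2, r3, F1, F2)` with `F1, F2 : R → R` some functions with `ℓ⁻¹ a_r ℓ = a_{F1 r}`,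
`ℓ⁻¹ b_r ℓ = b_{F2 r}` (choice).  If `g, g'` have the same image then `ℓ' ℓ⁻¹` commutes with all `a_r`, `b_r`
(`ℓ⁻¹ a_r ℓ = ℓ'⁻¹ a_r ℓ'`), so `ℓ' = ℓ x` with `x = ℓ⁻¹ ℓ'`, `ℓ' ℓ⁻¹ ∈ C`, `ℓ' = κ ℓ` with `κ ∈ C` and `g' = κ g`
(`κ` commutes with `a_{r1}`).  So `C` has finite index in `G0`, so `Subgroup.center G0` has finite index.
(b) `G0` is generated by the finitely many involutions `a_r`, `b_r`; apply StRC. -/
def StRF : Prop := StRC → ∀ (R : Type) [CommRing R] [Finite R] (G : Type) [Group G] (D : Dt R G),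
  (∀ g ∈ D.G0, ∃ (r1 r2 r3 : R) (l : G), D.InL l ∧ g = D.a r1 * l * D.b r2 * D.a r3) → Finite D.G0

/-- RQ.  Passing to quotients by the center of `G0`.

PROOF. (1) Restriction: let `P` be the subgroup of `G` generated by all `a_r`, `b_r`, `Y`, `Yb`, `w`; `D` restricts to
`D1 : Dt R P` and `D.G0 = D1.G0.map P.subtype`.  So assume that `G` is generated by these elements.
(2) Map: for `f : G →* H` there is `D.map f : Dt R H` with `a r := f (D.a r)` etc., `(D.map f).z = f D.z`,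
`(D.map f).del = f D.del`, `(D.map f).G0 = D.G0.map f`.
(3) Let `C = {g ∈ G0 | Cen g}`.  `G0` is normal in `G` (`Y`, `Yb`, `w` and their inverses permute the set of the `a_r`, `b_r`),
so `C` is normal in `G` (it is `G0 ⊓ centralizer G0`).  Let `π : G →* G ⧸ C`.  If `(D.map π).G0` is finite then `C` has finite
index in `G0` and is central in `G0`, so `center G0` has finite index in `G0` and `G0` is finite by StRC
(`G0` is generated by the finitely many involutions `a_r`, `b_r`).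
(4) `z ∈ C` by the first hypothesis (`z ∈ G0`), so `D' = D.map π` has `z = 1` (and `G ⧸ C` is generated by its `a_r`, ...).
By the second hypothesis `D'.del ∈ C'`, so `D'' = D'.map π'` has `z = 1` and `del = 1`.  By the third hypothesis
`D''.G0` is finite, by (3) `D'.G0` is finite and by (3) `D.G0` is finite. -/
def StRQ : Prop := StRC →
  (∀ (R : Type) [CommRing R] [Finite R] (G : Type) [Group G] (D : Dt R G), D.z * D.z = 1 ∧ D.Cen D.z) →
  (∀ (R : Type) [CommRing R] [Finite R] (G : Type) [Group G] (D : Dt R G), D.z = 1 →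
    D.del * D.del = 1 ∧ D.Cen D.del) →
  (∀ (R : Type) [CommRing R] [Finite R] (G : Type) [Group G] (D : Dt R G), D.z = 1 → D.del = 1 →
    Finite D.G0) →
  ∀ (R : Type) [CommRing R] [Finite R] (G : Type) [Group G] (D : Dt R G), Finite D.G0

/-- FIN.  `G0` is finite. -/
def StFIN : Prop := ∀ (R : Type) [CommRing R] [Finite R] (G : Type) [Group G] (D : Dt R G), Finite D.G0

/-- assembly of part (ii) -/
theorem fin_of (hRS1 : StRS1) (hRZ : StRZ) (hRN : StRN) (hRT : StRT) (hRD : StRD) (hRI1 : StRI1) (hRIS : StRIS)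
    (hRAL : StRAL) (hRX : StRX) (hSL2 : StSL2) (hRH : StRH) (hRM : StRM) (hRC : StRC) (hRF : StRF) (hRQ : StRQ) :
    StFIN := by
  refine hRQ hRC (hRZ hRS1) (hRD hRS1 hRN hRT) ?_
  intro R _ _ G _ D hz hd
  obtain ⟨h1, h2⟩ := hRAL hRS1 hRN hRT hRI1 hRD hRIS R G D hz hd
  have hn := (hRN R G D hz).1
  exact hRF hRC R G D (hRM hRS1 hRX R G D hn h1 h2 (hRH hRS1 hRX hSL2 R G D hn h1 h2))

end Pool.Agent.Helper43.RK
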