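import Pool.Agent.Helper43.RK.AsmT
import Pool.Agent.Helper71.RK.M_RS1
import Pool.Agent.Helper10.RK.M_RZ
import Pool.Agent.Helper88.RK.M_RN
import Pool.Agent.Helper42.RK.M_RT
import Pool.Agent.Helper78.RK.M_RD
import Pool.Agent.Helper29.RK.M_RI1
import Pool.Agent.Helper34.RK.M_RIS
import Pool.Agent.Helper36.RK.M_RAL
import Pool.Agent.Helper53.RK.M_RX
import Pool.Agent.Helper8.RK.M_SL2
import Pool.Agent.Helper32.RK.M_RH
import Pool.Agent.Helper95.RK.M_RM
import Pool.Agent.Helper7.RK.M_RC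
import Pool.Agent.Helper64.RK.M_RF
import Pool.Agent.Helper70.RK.M_RQ
import Pool.Agent.Helper10.RK.M_DEX
import Pool.Agent.Helper7.RK.M_TB
import Pool.Agent.Helper95.RK.M_TC
import Pool.Agent.Helper26.RK.M_TD
import Pool.Agent.Helper78.RK.M_DTC
import Pool.Agent.Helper4.RK.M_FG
import Pool.Agent.Helper7.RK.M_IPX
import Pool.Agent.Helper36.RK.M_IRU
import Pool.Agent.Helper26.RK.M_ISC
import Pool.Agent.Helper33.RK.M_ITH
import Pool.Agent.Helper45.RK.M_IYW
import Pool.Agent.Helper8.RK.M_IT3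
import Pool.Agent.Helper16.RK.M_ICO
import Pool.Agent.Helper6.RK.M_IEN
import Pool.Agent.Helper53.RK.M_INU
import Pool.Agent.Helper10.RK.M_ITT
import Pool.Agent.Helper13.RK.M_IZ2
import Pool.Agent.Helper29.RK.M_ICM
import Pool.Agent.Helper47.RK.M_IPI

/-! Project RK: all modules together. -/

set_option autoImplicit false

namespace Pool.Agent.Helper43.RK

open Pool.Agent Pool.Agent.Helper41.DZ

theorem pFIN : StFIN :=
  fin_of Helper71.RK.hRS1 Helper10.RK.hRZ Helper88.RK.hRN Helper42.RK.hRT Helper78.RK.hRD Helper29.RK.hRI1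
    Helper34.RK.hRIS Helper36.RK.hRAL Helper53.RK.hRX Helper8.RK.hSL2 Helper32.RK.hRH Helper95.RK.hRM
    Helper7.RK.hRC Helper64.RK.hRF Helper70.RK.hRQ

theorem pPI (hIQC : StIQC) : StPI :=
  Helper47.RK.hIPI Helper29.RK.hICM Helper13.RK.hIZ2 hIQC
    (Helper10.RK.hITT Helper7.RK.hIPX Helper36.RK.hIRU Helper26.RK.hISC Helper33.RK.hITH Helper45.RK.hIYW
      Helper8.RK.hIT3 Helper16.RK.hICO Helper6.RK.hIEN Helper53.RK.hINU)

theorem final (hIQC : StIQC) (hTA : StTA) (hSIM : StSIM) (n : ℕ) (hn : n % 2 = 1) :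
    ∃ (G : Type) (_ : Group G), Finite G ∧ DeficiencyZero G ∧
      IsCompositionFactor
        (Matrix.ProjectiveSpecialLinearGroup (Fin 3) (GaloisField 2 n)) G :=
  main pFIN (pPI hIQC) Helper78.RK.hDTC Helper4.RK.hFG Helper10.RK.hDEX hTA Helper7.RK.hTB Helper95.RK.hTC
    Helper26.RK.hTD hSIM n hn

end Pool.Agent.Helper43.RK
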