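import Pool.Agent.Helper43.RK.StT

/-!
Project RK (MP_b3ce06_al), module PAR (adapted from helper45).
-/

set_option autoImplicit false

namespace Pool.Agent.Helper43.RK

/-- **PAR** -/
theorem hPAR : StPAR := by
  intro n hn
  have hpos : 0 < n := by omega
  have hphi : 0 < Nat.totient n := Nat.totient_pos.2 hpos
  set p := Nat.totient n with hp
  have h8 : (8 : ℕ) ∣ 2 ^ (1 + 2 * p) := by
    have h : (2 : ℕ) ^ 3 ∣ 2 ^ (1 + 2 * p) := pow_dvd_pow 2 (by omega)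
    exact h
  have hge : 8 ≤ 2 ^ (1 + 2 * p) := Nat.le_of_dvd (by positivity) h8
  have h4 : 2 ^ (1 + 2 * p) - 1 - 1 = 2 * (2 ^ (2 * p) - 1) := by
    rw [pow_add, pow_one]
    omega
  have hm : (2 ^ (1 + 2 * p) - 1 - 1) / 2 = 2 ^ (2 * p) - 1 := by
    rw [h4]; omega
  have hodd : (2 ^ (2 * p) - 1) % 2 = 1 := by
    have h2 : (2 : ℕ) ∣ 2 ^ (2 * p) := dvd_pow_self 2 (by omega)
    have h1 : 1 ≤ 2 ^ (2 * p) := Nat.one_le_two_pow
    omega
  have h3 : n ∣ 2 ^ (2 * p) - 1 := by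
    have hco : Nat.Coprime 2 n := by
      rw [Nat.coprime_two_left]
      exact Nat.odd_iff.2 hn
    have h1 : 2 ^ p ≡ 1 [MOD n] := Nat.ModEq.pow_totient hco
    have h2 : 2 ^ (2 * p) ≡ 1 [MOD n] := by
      rw [mul_comm, pow_mul]
      have := h1.pow 2
      rwa [one_pow] at this
    exact (Nat.modEq_iff_dvd' (Nat.one_le_two_pow)).1 h2.symm
  refine ⟨2 ^ (1 + 2 * p) - 1, (2 ^ (2 * p) - 1) ^ 2, hn, ?_, ?_, ⟨1 + 2 * p, by omega, rfl⟩, ?_, ?_, ?_⟩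
  · obtain ⟨c, hc⟩ := h8
    rw [hc] at hge ⊢
    omega
  · rw [h4]
    exact h3.mul_left 2
  · have h5 : (2 ^ (2 * p) - 1) % 8 = 1 ∨ (2 ^ (2 * p) - 1) % 8 = 3 ∨ (2 ^ (2 * p) - 1) % 8 = 5 ∨
      (2 ^ (2 * p) - 1) % 8 = 7 := by omega
    rw [Nat.pow_mod]
    rcases h5 with h | h | h | h <;> rw [h]
  · exact h3.trans (dvd_pow_self _ (by norm_num))
  · rw [hm]
    exact dvd_pow_self _ (by norm_num)

end Pool.Agent.Helper43.RK
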