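import Pool.Agent.Helper43.RK.St
import Pool.Agent.Helper43.RK.StT
import Pool.Agent.Helper43.RK.StI
import Pool.Agent.Helper43.RK.M_PAR
import Pool.Agent.Helper41.DZ.CompSeries

/-! Assembly of project RK. -/

set_option autoImplicit false
set_option linter.unusedSimpArgs false

namespace Pool.Agent.Helper43.RK

open Pool.Agent.Helper41.DZ

theorem map_cj {G H : Type} [Group G] [Group H] (f : G →* H) (a t : G) (i : ℤ) :
    f (cj a t i) = cj (f a) (f t) i := by
  unfold cj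
  rw [map_mul, map_mul, map_zpow, map_zpow]

section free

def gg : FreeGroup (Fin 3) := FreeGroup.of 0
def ga : FreeGroup (Fin 3) := FreeGroup.of 1
def gt : FreeGroup (Fin 3) := FreeGroup.of 2

/-- the three relators -/
def r1 (k : ℕ) : FreeGroup (Fin 3) := (ga⁻¹ * gg * ga) * (gg ^ k)⁻¹
def r2 : FreeGroup (Fin 3) := ((gg ^ 4)⁻¹ * gt * gg ^ 4) * (gt ^ 2)⁻¹
def r3 (n β : ℕ) : FreeGroup (Fin 3) :=
  ((gg ^ β)⁻¹ * gt * gg ^ β) * (cj ga gt (1 - 2 ^ n) * gt⁻¹)⁻¹

/-- exponent sum of `t` -/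
def sumT : FreeGroup (Fin 3) →* Multiplicative ℤ :=
  FreeGroup.lift ![1, 1, Multiplicative.ofAdd 1]

theorem sumT_g : sumT gg = 1 := by simp [sumT, gg]
theorem sumT_a : sumT ga = 1 := by simp [sumT, ga]
theorem sumT_t : sumT gt = Multiplicative.ofAdd 1 := by simp [sumT, gt]

theorem sumT_r1 (k : ℕ) : sumT (r1 k) = 1 := by
  simp only [r1, map_mul, map_inv, map_pow, sumT_a, sumT_g]
  simp

theorem sumT_r2 : sumT r2 = Multiplicative.ofAdd (-1) := by
  simp only [r2, map_mul, map_inv, map_pow, sumT_g, sumT_t]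
  apply Multiplicative.toAdd.injective
  simp

theorem sumT_r3 (n β : ℕ) : sumT (r3 n β) = Multiplicative.ofAdd 2 := by
  simp only [r3, map_mul, map_inv, map_cj, map_pow, sumT_a, sumT_t, sumT_g, cj]
  apply Multiplicative.toAdd.injective
  simp
  ring

/-- the set of relators -/
noncomputable def rels (n k β : ℕ) : Finset (FreeGroup (Fin 3)) := by
  classical exact {r1 k, r2, r3 n β}

theorem rels_card (n k β : ℕ) : (rels n k β).card = 3 := by
  classical
  have h12 : r1 k ≠ r2 := by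
    intro e
    have := congrArg sumT e
    rw [sumT_r1, sumT_r2] at this
    have h' : (0 : ℤ) = -1 := Multiplicative.ofAdd.injective this
    omega
  have h13 : r1 k ≠ r3 n β := by
    intro e
    have := congrArg sumT e
    rw [sumT_r1, sumT_r3] at this
    have h' : (0 : ℤ) = 2 := Multiplicative.ofAdd.injective this
    omega
  have h23 : r2 ≠ r3 n β := by
    intro e
    have := congrArg sumT e
    rw [sumT_r2, sumT_r3] at this
    have h' : (-1 : ℤ) = 2 := Multiplicative.ofAdd.injective this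
    omega
  rw [rels]
  convert Finset.card_eq_three.2 ⟨r1 k, r2, r3 n β, h12, h13, h23, rfl⟩

theorem mem_rels {n k β : ℕ} (w : FreeGroup (Fin 3)) :
    w ∈ (rels n k β : Set (FreeGroup (Fin 3))) ↔ w = r1 k ∨ w = r2 ∨ w = r3 n β := by
  classical
  simp [rels]

theorem rel_iff {G : Type} [Group G] (f : FreeGroup (Fin 3) →* G) (n k β : ℕ) :
    RelB n k β (f gg) (f ga) (f gt) ↔ f (r1 k) = 1 ∧ f r2 = 1 ∧ f (r3 n β) = 1 := by
  have e1 : f (r1 k) = 1 ↔ (f ga)⁻¹ * f gg * f ga = f gg ^ k := by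
    rw [r1, map_mul, map_inv, mul_inv_eq_one]
    simp only [map_mul, map_inv, map_pow]
  have e2 : f r2 = 1 ↔ (f gg ^ 4)⁻¹ * f gt * f gg ^ 4 = f gt ^ 2 := by
    rw [r2, map_mul, map_inv, mul_inv_eq_one]
    simp only [map_mul, map_inv, map_pow]
  have e3 : f (r3 n β) = 1 ↔
      (f gg ^ β)⁻¹ * f gt * f gg ^ β = cj (f ga) (f gt) (1 - 2 ^ n) * (f gt)⁻¹ := by
    rw [r3, map_mul, map_inv, mul_inv_eq_one]
    simp only [map_mul, map_inv, map_cj, map_pow]
  rw [e1, e2, e3]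
  exact ⟨fun h => ⟨h.r1, h.r2, h.r3⟩, fun h => ⟨h.1, h.2.1, h.2.2⟩⟩

end free

/-- finiteness of the group with presentation (B) -/
theorem finB (hFIN : StFIN) (hPI : StPI) (hDTC : StDTC) (hFG : StFG)
    (n k β : ℕ) (hP : Par n k β) (G : Type) [Group G] (g a t : G) (hR : RelB n k β g a t)
    (hcl : Subgroup.closure {g, a, t} = (⊤ : Subgroup G)) : Finite G := by
  obtain ⟨C, hC, hCf, hRC⟩ := hPI n k β hP G g a t hR hcl
  have hn : 1 ≤ n := by
    have := hP.nodd
    omega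
  have hβ : β % 2 = 1 := by
    have := hP.b8
    omega
  obtain ⟨R, iR, iF, D, h1, h2, h3, h4, h5⟩ := hDTC n β hn hβ hP.nb (G ⧸ C) _ _ _ hRC
  have hcl' : Subgroup.closure {(QuotientGroup.mk g : G ⧸ C), QuotientGroup.mk a, QuotientGroup.mk t} =
      (⊤ : Subgroup (G ⧸ C)) := by
    have h := congrArg (Subgroup.map (QuotientGroup.mk' C)) hcl
    rw [MonoidHom.map_closure, ← MonoidHom.range_eq_map,
      MonoidHom.range_eq_top.2 (QuotientGroup.mk'_surjective C)] at h
    rw [← h]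
    congr 1
    rw [Set.image_insert_eq, Set.image_insert_eq, Set.image_singleton]
    rfl
  have hG0 : Finite D.G0 := hFIN R (G ⧸ C) D
  have hq : Finite (G ⧸ C) := hFG n β hn hβ (G ⧸ C) _ _ _ hRC hcl' R D h1 h2 h3 h4 h5 hG0
  exact Finite.of_subgroup_quotient C

/-- main theorem -/
theorem main (hFIN : StFIN) (hPI : StPI) (hDTC : StDTC) (hFG : StFG) (hDEX : StDEX) (hTA : StTA) (hTB : StTB)
    (hTC : StTC) (hTD : StTD) (hSIM : StSIM) (n : ℕ) (hn : n % 2 = 1) :
    ∃ (G : Type) (_ : Group G), Finite G ∧ DeficiencyZero G ∧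
      IsCompositionFactor
        (Matrix.ProjectiveSpecialLinearGroup (Fin 3) (GaloisField 2 n)) G := by
  obtain ⟨k, β, hP⟩ := hPAR n hn
  obtain ⟨d, hd⟩ := hDEX n hn
  obtain ⟨T, iT, ⟨τ⟩⟩ := hTA n d hn hd.1
  let R := rels n k β
  let G := PresentedGroup (R : Set (FreeGroup (Fin 3)))
  let π : FreeGroup (Fin 3) →* G := PresentedGroup.mk (R : Set (FreeGroup (Fin 3)))
  have hrel : RelB n k β (π gg) (π ga) (π gt) := by
    rw [rel_iff]
    exact ⟨PresentedGroup.one_of_mem ((mem_rels _).2 (Or.inl rfl)),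
      PresentedGroup.one_of_mem ((mem_rels _).2 (Or.inr (Or.inl rfl))),
      PresentedGroup.one_of_mem ((mem_rels _).2 (Or.inr (Or.inr rfl)))⟩
  have hgen : Subgroup.closure {π gg, π ga, π gt} = (⊤ : Subgroup G) := by
    rw [← PresentedGroup.closure_range_of (R : Set (FreeGroup (Fin 3)))]
    congr 1
    ext g
    constructor
    · rintro (rfl | rfl | rfl)
      · exact ⟨0, rfl⟩
      · exact ⟨1, rfl⟩
      · exact ⟨2, rfl⟩
    · rintro ⟨b, rfl⟩
      fin_cases b
      · exact Or.inl rfl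
      · exact Or.inr (Or.inl rfl)
      · exact Or.inr (Or.inr rfl)
  have hfin : Finite G := finB hFIN hPI hDTC hFG n k β hP G (π gg) (π ga) (π gt) hrel hgen
  have hdef : DeficiencyZero G :=
    ⟨Fin 3, inferInstance, R, by rw [rels_card]; rfl, ⟨MulEquiv.refl _⟩⟩
  -- the matrices
  have detA : (mA (1 : GaloisField 2 n) 0).det ≠ 0 := by
    simp [mA, Matrix.det_fin_three]
  have hd0 : d ≠ 0 := by
    intro h0
    have h1 := hd.1
    rw [h0] at h1
    have h2 : (∑ i ∈ Finset.range n, (0 : GaloisField 2 n) ^ (2 ^ i)) = 0 := by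
      refine Finset.sum_eq_zero fun i _ => ?_
      exact zero_pow (by positivity)
    rw [h2] at h1
    exact zero_ne_one h1
  have detY : (mY d).det ≠ 0 := by
    simp [mY, Matrix.det_fin_three, hd0]
  let A : GL (Fin 3) (GaloisField 2 n) := Matrix.GeneralLinearGroup.mkOfDetNeZero _ detA
  let Y : GL (Fin 3) (GaloisField 2 n) := Matrix.GeneralLinearGroup.mkOfDetNeZero _ detY
  have hA : (A : Matrix (Fin 3) (Fin 3) (GaloisField 2 n)) = mA 1 0 := rfl
  have hY : (Y : Matrix (Fin 3) (Fin 3) (GaloisField 2 n)) = mY d := rfl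
  obtain ⟨hB, hw⟩ := hTB n k β d hP hd.1 T τ A Y hA hY
  set g' : T := τ.φ ^ ((β - 1) / 4) * (τ.w * τ.κ A) with hg'
  let ρ : FreeGroup (Fin 3) →* T := FreeGroup.lift ![g', τ.κ A, τ.κ Y]
  have ρg : ρ gg = g' := by simp [ρ, gg]
  have ρa : ρ ga = τ.κ A := by simp [ρ, ga]
  have ρt : ρ gt = τ.κ Y := by simp [ρ, gt]
  have hρ := (rel_iff ρ n k β).1 (by rw [ρa, ρg, ρt]; exact hB)
  have hrels : ∀ w' ∈ (R : Set (FreeGroup (Fin 3))), FreeGroup.lift ![g', τ.κ A, τ.κ Y] w' = 1 := by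
    intro w' hw'
    rcases (mem_rels w').1 hw' with rfl | rfl | rfl
    · exact hρ.1
    · exact hρ.2.1
    · exact hρ.2.2
  let φ : G →* T := PresentedGroup.toGroup hrels
  have hφ : ∀ i : Fin 3, φ (PresentedGroup.of i) = ![g', τ.κ A, τ.κ Y] i := fun i =>
    PresentedGroup.toGroup.of hrels (x := i)
  obtain ⟨L, hL, f', hf'⟩ := hTD hTC n β d hn hd T τ A Y hA hY G φ (π gg) (π ga) (π gt) (hφ 1) (hφ 2)
    (hφ 0) (by
      have e0 : φ (π gg) = g' := hφ 0
      have e1 : φ (π ga) = τ.κ A := hφ 1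
      rw [e0, e1]
      exact hw) hgen
  exact ⟨G, inferInstance, hfin, hdef,
    factor_of_section _ (hSIM (GaloisField 2 n)) _ G rfl L hL f' hf'⟩

end Pool.Agent.Helper43.RK
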