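import Pool.Agent.Helper43.RK.StT

/-! Project RK, module TA: the target group. -/

set_option autoImplicit false

namespace Pool.Agent.Helper43.RK

section

variable {k : Type} [Field k]

/-- inverse transpose -/
private def it (M : GL (Fin 3) k) : GL (Fin 3) k where
  val := ((M⁻¹ : GL (Fin 3) k) : Matrix (Fin 3) (Fin 3) k).transpose
  inv := (M : Matrix (Fin 3) (Fin 3) k).transpose
  val_inv := by
    rw [← Matrix.transpose_mul, ← Units.val_mul, mul_inv_cancel, Units.val_one,
      Matrix.transpose_one]
  inv_val := by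
    rw [← Matrix.transpose_mul, ← Units.val_mul, inv_mul_cancel, Units.val_one,
      Matrix.transpose_one]

private lemma it_val (M : GL (Fin 3) k) : ((it M : GL (Fin 3) k) : Matrix (Fin 3) (Fin 3) k) =
    ((M⁻¹ : GL (Fin 3) k) : Matrix (Fin 3) (Fin 3) k).transpose := rfl

private lemma it_it (M : GL (Fin 3) k) : it (it M) = M := by
  apply Units.ext
  change ((M : Matrix (Fin 3) (Fin 3) k).transpose).transpose = _
  rw [Matrix.transpose_transpose]

private lemma it_mul (M N : GL (Fin 3) k) : it (M * N) = it M * it N := by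
  apply Units.ext
  rw [Units.val_mul, it_val, it_val, it_val, mul_inv_rev, Units.val_mul, Matrix.transpose_mul]

/-- the automorphism -/
private def itA : MulAut (GL (Fin 3) k) where
  toFun := it
  invFun := it
  left_inv := it_it
  right_inv := it_it
  map_mul' := it_mul

private lemma itA_apply (M : GL (Fin 3) k) : itA M = it M := rfl

private lemma itA_itA : (itA : MulAut (GL (Fin 3) k)) * itA = 1 := by
  apply MulEquiv.ext
  intro g
  rw [MulAut.mul_apply, itA_apply, itA_apply, it_it, MulAut.one_apply]

private lemma aut_conj {G : Type} [Group G] (f : MulAut G) (g : G) :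
    f * MulAut.conj g * f⁻¹ = MulAut.conj (f g) := by
  apply MulEquiv.ext
  intro h
  rw [MulAut.mul_apply, MulAut.mul_apply, MulAut.conj_apply, MulAut.conj_apply, map_mul, map_mul,
    map_inv, MulAut.apply_inv_self]

private lemma aut_conj' {G : Type} [Group G] (f : MulAut G) (g : G) :
    f * MulAut.conj g = MulAut.conj (f g) * f := by
  rw [← aut_conj, inv_mul_cancel_right]

variable [CharP k 2]

private lemma two (x : k) : x + x = 0 := CharTwo.add_self_eq_zero x

/-- the Gram matrix -/
private def Jg (k : Type) [Field k] [CharP k 2] : GL (Fin 3) k where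
  val := mJ
  inv := !![1, 1, 0; 1, 0, 0; 0, 0, 1]
  val_inv := by
    have h := two (1 : k)
    ext i j
    fin_cases i <;> fin_cases j <;> simp [mJ, Matrix.mul_apply, Fin.sum_univ_three, h]
  inv_val := by
    have h := two (1 : k)
    ext i j
    fin_cases i <;> fin_cases j <;> simp [mJ, Matrix.mul_apply, Fin.sum_univ_three, h]

omit [CharP k 2] in
private lemma mQ_mul (x y : k) : (mQ x : Matrix (Fin 3) (Fin 3) k) * mQ y = mQ (x + y) := by
  ext i j
  fin_cases i <;> fin_cases j <;> simp [mQ, Matrix.mul_apply, Fin.sum_univ_three, add_comm]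

omit [CharP k 2] in
private lemma mQ_zero : (mQ 0 : Matrix (Fin 3) (Fin 3) k) = 1 := by
  ext i j
  fin_cases i <;> fin_cases j <;> simp [mQ]

/-- the matrix of squaring -/
private def Qg (x : k) : GL (Fin 3) k where
  val := mQ x
  inv := mQ x
  val_inv := by rw [mQ_mul, two, mQ_zero]
  inv_val := by rw [mQ_mul, two, mQ_zero]

private lemma Qg_val (x : k) : ((Qg x : GL (Fin 3) k) : Matrix (Fin 3) (Fin 3) k) = mQ x := rfl

private lemma Jg_val : ((Jg k : GL (Fin 3) k) : Matrix (Fin 3) (Fin 3) k) = mJ := rfl

private lemma Qg_mul (x y : k) : Qg x * Qg y = Qg (x + y) := by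
  apply Units.ext
  rw [Units.val_mul, Qg_val, Qg_val, Qg_val, mQ_mul]

private lemma it_J : it (Jg k) = (Jg k)⁻¹ := by
  rw [eq_inv_iff_mul_eq_one]
  apply Units.ext
  rw [Units.val_mul, it_val, Units.val_one]
  have h : (mJ : Matrix (Fin 3) (Fin 3) k).transpose = mJ := by
    ext i j
    fin_cases i <;> fin_cases j <;> simp [mJ]
  rw [Jg_val, ← h, ← Jg_val, ← Matrix.transpose_mul, ← Units.val_mul, mul_inv_cancel, Units.val_one,
    Matrix.transpose_one]

private lemma it_Q (x : k) : (Jg k)⁻¹ * it (Qg x) = Qg x * (Jg k)⁻¹ := by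
  rw [inv_mul_eq_iff_eq_mul, ← mul_assoc, eq_mul_inv_iff_mul_eq]
  apply Units.ext
  rw [Units.val_mul, Units.val_mul, it_val, Jg_val, Qg_val]
  change (mQ x : Matrix (Fin 3) (Fin 3) k).transpose * mJ = mJ * mQ x
  ext i j
  fin_cases i <;> fin_cases j <;>
    simp [mJ, mQ, Matrix.mul_apply, Fin.sum_univ_three]

/-- squaring of all entries -/
private noncomputable def Fa (k : Type) [Field k] [CharP k 2] [Finite k] : MulAut (GL (Fin 3) k) :=
  have : Fact (Nat.Prime 2) := ⟨Nat.prime_two⟩
  Units.mapEquiv (RingEquiv.mapMatrix (m := Fin 3) (frobeniusEquiv k 2)).toMulEquiv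

private lemma Fa_val [Finite k] (M : GL (Fin 3) k) :
    ((Fa k M : GL (Fin 3) k) : Matrix (Fin 3) (Fin 3) k) =
    (M : Matrix (Fin 3) (Fin 3) k).map (fun x => x ^ 2) := rfl

private lemma Fa_it [Finite k] : Fa k * itA = itA * Fa k := by
  apply MulEquiv.ext
  intro M
  rw [MulAut.mul_apply, MulAut.mul_apply, itA_apply, itA_apply]
  apply Units.ext
  rw [Fa_val, it_val, it_val, ← map_inv, Fa_val]
  rfl

private lemma Fa_J [Finite k] : Fa k (Jg k) = Jg k := by
  apply Units.ext
  rw [Fa_val, Jg_val]
  ext i j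
  fin_cases i <;> fin_cases j <;> simp [mJ]

private lemma Fa_Q [Finite k] (x : k) : Fa k (Qg x) = Qg (x ^ 2) := by
  apply Units.ext
  rw [Fa_val, Qg_val, Qg_val]
  ext i j
  fin_cases i <;> fin_cases j <;> simp [mQ]

private lemma Fa_pow [Finite k] (m : ℕ) (M : GL (Fin 3) k) :
    (((Fa k) ^ m) M : GL (Fin 3) k).1 = (M : Matrix (Fin 3) (Fin 3) k).map (fun x => x ^ (2 ^ m)) := by
  induction m with
  | zero =>
    rw [pow_zero, MulAut.one_apply]
    ext i j
    simp
  | succ m ih =>
    rw [pow_succ', MulAut.mul_apply, Fa_val, ih]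
    ext i j
    simp only [Matrix.map_apply]
    rw [← pow_mul, ← pow_succ]

end

theorem hTA : StTA := by
  intro n d hn hd
  have hn0 : n ≠ 0 := by
    rintro rfl
    simp at hn
  have : Fact (Nat.Prime 2) := ⟨Nat.prime_two⟩
  have : Fintype (GaloisField 2 n) := Fintype.ofFinite _
  have hcard : Fintype.card (GaloisField 2 n) = 2 ^ n := by
    rw [← Nat.card_eq_fintype_card, GaloisField.card 2 n hn0]
  have hfr : ∀ x : GaloisField 2 n, x ^ (2 ^ n) = x := by
    intro x
    rw [← hcard]
    exact FiniteField.pow_card x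
  have hFn : (Fa (GaloisField 2 n)) ^ n = 1 := by
    apply MulEquiv.ext
    intro M
    apply Units.ext
    rw [Fa_pow, MulAut.one_apply]
    ext i j
    simp only [Matrix.map_apply]
    exact hfr _
  have hphi : ∀ m : ℕ, (MulAut.conj (Qg d) * Fa (GaloisField 2 n)) ^ m =
      MulAut.conj (Qg (∑ i ∈ Finset.range m, d ^ (2 ^ i))) * (Fa (GaloisField 2 n)) ^ m := by
    intro m
    induction m with
    | zero =>
      rw [pow_zero, Finset.range_zero, Finset.sum_empty, pow_zero, mul_one]
      have h : Qg (0 : GaloisField 2 n) = 1 := by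
        apply Units.ext
        rw [Qg_val, mQ_zero]
        rfl
      rw [h, map_one]
    | succ m ih =>
      rw [pow_succ', ih, mul_assoc, ← mul_assoc (Fa _), aut_conj', Fa_Q, mul_assoc, ← pow_succ',
        ← mul_assoc, ← map_mul, Qg_mul]
      congr 3
      rw [Finset.sum_range_succ']
      rw [CharTwo.sum_sq]
      rw [add_comm]
      congr 1
      · apply Finset.sum_congr rfl
        intro i _
        rw [← pow_mul, ← pow_succ]
      · simp
  refine ⟨MulAut (GL (Fin 3) (GaloisField 2 n)), inferInstance, ⟨?_⟩⟩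
  exact {
    κ := MulAut.conj
    w := MulAut.conj (Jg _)⁻¹ * itA
    φ := MulAut.conj (Qg d) * Fa (GaloisField 2 n)
    ww := by
      rw [mul_assoc, ← mul_assoc itA, aut_conj', mul_assoc _ itA, itA_itA, mul_one, ← map_mul,
        map_inv, itA_apply, it_J, inv_inv, inv_mul_cancel, map_one]
    wφ := by
      rw [mul_assoc, ← mul_assoc itA, aut_conj', mul_assoc (MulAut.conj (Qg d)), ← mul_assoc (Fa _),
        aut_conj', mul_assoc _ (Fa _), Fa_it, mul_assoc _ itA, ← mul_assoc, ← map_mul,
        itA_apply, it_Q, map_inv (Fa _), Fa_J, map_mul, mul_assoc]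
    ker := by
      intro M
      constructor
      · intro h N
        have h1 := congrArg (fun f => f N) h
        simp only [MulAut.conj_apply, MulAut.one_apply] at h1
        exact mul_inv_eq_iff_eq_mul.1 h1
      · intro h
        apply MulEquiv.ext
        intro N
        rw [MulAut.conj_apply, MulAut.one_apply, h, mul_inv_cancel_right]
    hw := by
      intro M N h
      rw [aut_conj]
      congr 1
      rw [MulAut.mul_apply, MulAut.conj_apply, itA_apply, inv_inv, mul_assoc, inv_mul_eq_iff_eq_mul]
      apply Units.ext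
      rw [Units.val_mul, Units.val_mul, it_val, Jg_val]
      exact h.symm
    hφ := by
      intro M N h
      rw [aut_conj]
      congr 1
      rw [MulAut.mul_apply, MulAut.conj_apply, mul_inv_eq_iff_eq_mul]
      apply Units.ext
      rw [Units.val_mul, Units.val_mul, Fa_val, Qg_val]
      exact h.symm
    φn := by
      intro N h
      rw [hphi, hFn, mul_one, hd]
      congr 1
      apply Units.ext
      rw [Qg_val]
      exact h.symm }

end Pool.Agent.Helper43.RK
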