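import Pool.Agent.Helper43.RK.All
import Pool.Agent.Helper43.RK.M_TA
import Pool.Agent.Helper3.RK.M_SIM
import Pool.Agent.Helper20.RK.M_IQC

/-! Project RK: the final theorem. -/

set_option autoImplicit false

namespace Pool.Agent.Helper43.RK

open Pool.Agent Pool.Agent.Helper41.DZ

theorem fin (n : ℕ) (hn : n % 2 = 1) :
    ∃ (G : Type) (_ : Group G), Finite G ∧ DeficiencyZero G ∧
      IsCompositionFactor
        (Matrix.ProjectiveSpecialLinearGroup (Fin 3) (GaloisField 2 n)) G :=
  final Helper20.RK.hIQC hTA Helper3.RK.hSIM n hn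

end Pool.Agent.Helper43.RK
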